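import Mathlib
import Pool.Agent.Helper74.KV.K2

set_option autoImplicit false

namespace Pool.Agent.H951R3

open Finset

/-- The point `(x - θ) / b` of the circle. -/
noncomputable def ctr (θ : ℝ) (b x : ℕ) : UnitAddCircle := ((((x : ℝ) - θ) / b : ℝ) : UnitAddCircle)

theorem ctr_dist (θ θ' : ℝ) (b x b' x' : ℕ) : ‖ctr θ b x - ctr θ' b' x'‖
    = |(((x : ℝ) - θ) / b - ((x' : ℝ) - θ') / b') - round (((x : ℝ) - θ) / b - ((x' : ℝ) - θ') / b')| := by
  unfold ctr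
  rw [← AddCircle.coe_sub, UnitAddCircle.norm_eq]

/-- the integer attached to a pair of numerators -/
noncomputable def ff (θ θ' : ℝ) (g u u' : ℕ) (x : ℕ × ℕ) : ℤ :=
  (x.1 : ℤ) * u' - x.2 * u
    - round (((x.1 : ℝ) - θ) / ((g * u : ℕ) : ℝ) - ((x.2 : ℝ) - θ') / ((g * u' : ℕ) : ℝ)) * (g * u * u')

theorem ff_real (θ θ' : ℝ) (g u u' : ℕ) (hg : 0 < g) (hu : 0 < u) (hu' : 0 < u') (x : ℕ × ℕ) :
    (ff θ θ' g u u' x : ℝ) - (u' * θ - u * θ')
      = ((((x.1 : ℝ) - θ) / ((g * u : ℕ) : ℝ) - ((x.2 : ℝ) - θ') / ((g * u' : ℕ) : ℝ))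
      - round (((x.1 : ℝ) - θ) / ((g * u : ℕ) : ℝ) - ((x.2 : ℝ) - θ') / ((g * u' : ℕ) : ℝ))) * (g * u * u') := by
  have haR : (u : ℝ) ≠ 0 := by exact_mod_cast hu.ne'
  have hbR : (u' : ℝ) ≠ 0 := by exact_mod_cast hu'.ne'
  have hgR : (g : ℝ) ≠ 0 := by exact_mod_cast hg.ne'
  have h3 : (((x.1 : ℝ) - θ) / ((g * u : ℕ) : ℝ) - ((x.2 : ℝ) - θ') / ((g * u' : ℕ) : ℝ)) * (g * u * u')
      = (x.1 - θ) * u' - (x.2 - θ') * u := by
    push_cast
    field_simp
  unfold ff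
  push_cast
  push_cast at h3
  rw [sub_mul, h3]
  ring

theorem ff_bound (θ θ' : ℝ) (g u u' : ℕ) (hg : 0 < g) (hu : 0 < u) (hu' : 0 < u') (R : ℝ) (x : ℕ × ℕ)
    (h : ‖ctr θ (g * u) x.1 - ctr θ' (g * u') x.2‖ ≤ R) :
    |(ff θ θ' g u u' x : ℝ) - (u' * θ - u * θ')| ≤ R * (g * u * u') := by
  rw [ff_real θ θ' g u u' hg hu hu', abs_mul]
  rw [ctr_dist] at h
  have hpos : (0 : ℝ) < g * u * u' := by positivity
  rw [abs_of_pos hpos]
  exact mul_le_mul_of_nonneg_right h hpos.le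

theorem ff_inj (θ θ' : ℝ) (g u u' : ℕ) (hu : 0 < u) (hcop : Nat.Coprime u u')
    (x y : ℕ × ℕ) (hx2 : x.2 < g * u') (hy2 : y.2 < g * u') (hxy : x.1 / u = y.1 / u)
    (e1 : ff θ θ' g u u' x = ff θ θ' g u u' y) : x = y := by
  unfold ff at e1
  set t := round (((x.1 : ℝ) - θ) / ((g * u : ℕ) : ℝ) - ((x.2 : ℝ) - θ') / ((g * u' : ℕ) : ℝ))
  set t' := round (((y.1 : ℝ) - θ) / ((g * u : ℕ) : ℝ) - ((y.2 : ℝ) - θ') / ((g * u' : ℕ) : ℝ))
  have e2 : ((x.1 : ℤ) - y.1) * u' = u * ((x.2 : ℤ) - y.2 + (t - t') * (g * u')) := by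
    linear_combination e1
  have hcop' : IsCoprime (u : ℤ) (u' : ℤ) := Nat.isCoprime_iff_coprime.2 hcop
  have hdvd : (u : ℤ) ∣ ((x.1 : ℤ) - y.1) := by
    apply hcop'.dvd_of_dvd_mul_right
    exact ⟨_, e2⟩
  have hlt : |(x.1 : ℤ) - y.1| < u := by
    have h1 := Nat.div_add_mod x.1 u
    have h2 := Nat.div_add_mod y.1 u
    have h3 := Nat.mod_lt x.1 hu
    have h4 := Nat.mod_lt y.1 hu
    rw [hxy] at h1
    rw [abs_lt]
    constructor <;> omega
  have h0 := Int.eq_zero_of_abs_lt_dvd hdvd hlt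
  have hx1 : x.1 = y.1 := by omega
  rw [h0, zero_mul] at e2
  have e3 : ((x.2 : ℤ) - y.2 + (t - t') * (g * u')) = 0 := by
    rcases mul_eq_zero.1 e2.symm with h | h
    · exfalso; have : u = 0 := by exact_mod_cast h
      omega
    · exact h
  have hdvd2 : ((g * u' : ℕ) : ℤ) ∣ ((x.2 : ℤ) - y.2) := ⟨t' - t, by push_cast; linear_combination e3⟩
  have hlt2 : |(x.2 : ℤ) - y.2| < ((g * u' : ℕ) : ℤ) := by
    rw [abs_lt]
    constructor <;> omega
  have h02 := Int.eq_zero_of_abs_lt_dvd hdvd2 hlt2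
  exact Prod.ext hx1 (by omega)

/-- the close pairs of numerators -/
noncomputable def cp (θ θ' : ℝ) (b b' : ℕ) (R : ℝ) : Finset (ℕ × ℕ) :=
  (((range b).filter (fun x => Nat.Coprime x b)) ×ˢ ((range b').filter (fun x => Nat.Coprime x b'))).filter
    (fun x => ‖ctr θ b x.1 - ctr θ' b' x.2‖ ≤ R)

theorem mem_cp (θ θ' : ℝ) (b b' : ℕ) (R : ℝ) (x : ℕ × ℕ) : x ∈ cp θ θ' b b' R ↔
    ((x.1 < b ∧ Nat.Coprime x.1 b) ∧ (x.2 < b' ∧ Nat.Coprime x.2 b')) ∧
      ‖ctr θ b x.1 - ctr θ' b' x.2‖ ≤ R := by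
  unfold cp
  simp only [mem_filter, mem_product, mem_range]

theorem cp_card (θ θ' : ℝ) (g u u' : ℕ) (hg : 0 < g) (hu : 0 < u) (hu' : 0 < u')
    (hcop : Nat.Coprime u u') (R : ℝ) :
    (cp θ θ' (g * u) (g * u') R).card ≤
      g * (Icc ⌈(u' * θ - u * θ') - R * (g * u * u')⌉ ⌊(u' * θ - u * θ') + R * (g * u * u')⌋).card := by
  apply Finset.card_le_mul_card_image_of_maps_to (f := ff θ θ' g u u')
  · intro x hx
    rw [mem_cp] at hx
    have h := ff_bound θ θ' g u u' hg hu hu' R x hx.2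
    rw [abs_le] at h
    rw [mem_Icc]
    constructor
    · rw [Int.ceil_le]; linarith [h.1]
    · rw [Int.le_floor]; linarith [h.2]
  · intro w _
    have hmap : Set.MapsTo (fun x : ℕ × ℕ => x.1 / u)
        ((cp θ θ' (g * u) (g * u') R).filter (fun x => ff θ θ' g u u' x = w)) (range g : Finset ℕ) := by
      intro x hx
      rw [coe_filter, Set.mem_ofPred_eq, mem_cp] at hx
      simp only [coe_range, Set.mem_Iio]
      rw [Nat.div_lt_iff_lt_mul hu]
      exact hx.1.1.1.1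
    have hinj : Set.InjOn (fun x : ℕ × ℕ => x.1 / u)
        ((cp θ θ' (g * u) (g * u') R).filter (fun x => ff θ θ' g u u' x = w)) := by
      intro x hx y hy hxy
      rw [coe_filter, Set.mem_ofPred_eq, mem_cp] at hx hy
      exact ff_inj θ θ' g u u' hu hcop x y hx.1.1.2.1 hy.1.1.2.1 hxy (by rw [hx.2, hy.2])
    have := Finset.card_le_card_of_injOn _ hmap hinj
    rwa [card_range] at this

theorem icc_card (τ η : ℝ) (hη : 0 ≤ η) : ((Icc ⌈τ - η⌉ ⌊τ + η⌋).card : ℝ) ≤ 2 * η + 1 := by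
  rw [Int.card_Icc]
  have h1 : ((⌊τ + η⌋ : ℤ) : ℝ) ≤ τ + η := Int.floor_le _
  have h2 : τ - η ≤ ((⌈τ - η⌉ : ℤ) : ℝ) := Int.le_ceil _
  rcases le_total (⌊τ + η⌋ + 1 - ⌈τ - η⌉) 0 with h | h
  · rw [Int.toNat_of_nonpos h]; push_cast; linarith
  · have h3 : (((⌊τ + η⌋ + 1 - ⌈τ - η⌉).toNat : ℕ) : ℝ) = ((⌊τ + η⌋ + 1 - ⌈τ - η⌉ : ℤ) : ℝ) := by
      exact_mod_cast Int.toNat_of_nonneg h
    rw [h3]; push_cast; linarith

theorem pair_bound (θ θ' : ℝ) (g u u' : ℕ) (hg : 0 < g) (hu : 0 < u) (hu' : 0 < u')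
    (hcop : Nat.Coprime u u') (R : ℝ) (hR : 0 ≤ R) (Z : Prop) (hZ : Z → (u' : ℝ) * θ = u * θ') :
    ((cp θ θ' (g * u) (g * u') R).card : ℝ) ≤ 4 * R * ((g * u : ℕ) : ℝ) * ((g * u' : ℕ) : ℝ)
      + (open Classical in if ¬ Z ∧ ∃ w : ℤ, |(w : ℝ) - (u' * θ - u * θ')| ≤ R * (g * u * u') then (g : ℝ) else 0)
      + (open Classical in if Z ∧ u = 1 ∧ u' = 1 then (g : ℝ) else 0) := by
  classical
  have hgR : (0 : ℝ) < g := by exact_mod_cast hg
  have huR : (0 : ℝ) < u := by exact_mod_cast hu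
  have huR' : (0 : ℝ) < u' := by exact_mod_cast hu'
  have hc := cp_card θ θ' g u u' hg hu hu' hcop R
  set τ : ℝ := u' * θ - u * θ' with hτ
  set η : ℝ := R * (g * u * u') with hη
  have hη0 : 0 ≤ η := by positivity
  have hmain : 0 ≤ 4 * R * ((g * u : ℕ) : ℝ) * ((g * u' : ℕ) : ℝ) := by positivity
  have hi1 : (0 : ℝ) ≤ if ¬ Z ∧ ∃ w : ℤ, |(w : ℝ) - τ| ≤ η then (g : ℝ) else 0 := by
    split_ifs <;> positivity
  have hi2 : (0 : ℝ) ≤ if Z ∧ u = 1 ∧ u' = 1 then (g : ℝ) else 0 := by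
    split_ifs <;> positivity
  have hcR : ((cp θ θ' (g * u) (g * u') R).card : ℝ) ≤ g * ((Icc ⌈τ - η⌉ ⌊τ + η⌋).card : ℝ) := by
    exact_mod_cast hc
  rcases le_or_gt (1 / 2) η with h | h
  · have h1 : (cp θ θ' (g * u) (g * u') R).card ≤ (g : ℝ) * (2 * η + 1) :=
      hcR.trans (mul_le_mul_of_nonneg_left (icc_card τ η hη0) hgR.le)
    have h2 : (g : ℝ) * (2 * η + 1) ≤ g * (4 * η) := mul_le_mul_of_nonneg_left (by linarith) hgR.le
    have h3 : (g : ℝ) * (4 * η) = 4 * R * ((g * u : ℕ) : ℝ) * ((g * u' : ℕ) : ℝ) := by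
      rw [hη]; push_cast; ring
    linarith
  · by_cases hz : Z
    · have hτ0 : τ = 0 := by rw [hτ, hZ hz]; ring
      rcases (cp θ θ' (g * u) (g * u') R).eq_empty_or_nonempty with he | ⟨x0, hx0⟩
      · rw [he, card_empty, Nat.cast_zero]; positivity
      · have hzero : ∀ x ∈ cp θ θ' (g * u) (g * u') R, ff θ θ' g u u' x = 0 := by
          intro x hx
          rw [mem_cp] at hx
          have h1 := ff_bound θ θ' g u u' hg hu hu' R x hx.2
          rw [← hτ, hτ0, sub_zero] at h1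
          have h2 : |(ff θ θ' g u u' x : ℝ)| < 1 := by linarith
          have h3 : |ff θ θ' g u u' x| < 1 := by exact_mod_cast h2
          exact Int.abs_lt_one_iff.1 h3
        have hcop' : IsCoprime (u : ℤ) (u' : ℤ) := Nat.isCoprime_iff_coprime.2 hcop
        have hu1 : u = 1 ∧ u' = 1 := by
          have h1 := hzero x0 hx0
          rw [mem_cp] at hx0
          unfold ff at h1
          set t := round (((x0.1 : ℝ) - θ) / ((g * u : ℕ) : ℝ) - ((x0.2 : ℝ) - θ') / ((g * u' : ℕ) : ℝ))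
          constructor
          · have h2 : (u : ℤ) ∣ (x0.1 : ℤ) := by
              apply hcop'.dvd_of_dvd_mul_right
              exact ⟨x0.2 + t * (g * u'), by linear_combination h1⟩
            have h3 : u ∣ x0.1 := by exact_mod_cast h2
            exact Nat.eq_one_of_dvd_coprimes hx0.1.1.2 h3 (Dvd.intro_left g rfl)
          · have h2 : (u' : ℤ) ∣ (x0.2 : ℤ) := by
              apply hcop'.symm.dvd_of_dvd_mul_right
              exact ⟨x0.1 - t * (g * u), by linear_combination -h1⟩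
            have h3 : u' ∣ x0.2 := by exact_mod_cast h2
            exact Nat.eq_one_of_dvd_coprimes hx0.1.2.2 h3 (Dvd.intro_left g rfl)
        rw [if_pos (⟨hz, hu1⟩ : Z ∧ u = 1 ∧ u' = 1)]
        have hcard : (cp θ θ' (g * u) (g * u') R).card ≤ g := by
          have hmap : Set.MapsTo (fun x : ℕ × ℕ => x.1 / u) (cp θ θ' (g * u) (g * u') R : Finset (ℕ × ℕ))
              (range g : Finset ℕ) := by
            intro x hx
            rw [mem_coe, mem_cp] at hx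
            simp only [coe_range, Set.mem_Iio]
            rw [Nat.div_lt_iff_lt_mul hu]
            exact hx.1.1.1
          have hinj : Set.InjOn (fun x : ℕ × ℕ => x.1 / u) (cp θ θ' (g * u) (g * u') R : Finset (ℕ × ℕ)) := by
            intro x hx y hy hxy
            rw [mem_coe] at hx hy
            have hx' := (mem_cp _ _ _ _ _ _).1 hx
            have hy' := (mem_cp _ _ _ _ _ _).1 hy
            exact ff_inj θ θ' g u u' hu hcop x y hx'.1.2.1 hy'.1.2.1 hxy (by rw [hzero x hx, hzero y hy])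
          have := Finset.card_le_card_of_injOn _ hmap hinj
          rwa [card_range] at this
        have : ((cp θ θ' (g * u) (g * u') R).card : ℝ) ≤ g := by exact_mod_cast hcard
        linarith
    · by_cases hw : ∃ w : ℤ, |(w : ℝ) - τ| ≤ η
      · rw [if_pos (⟨hz, hw⟩ : ¬ Z ∧ ∃ w : ℤ, |(w : ℝ) - τ| ≤ η)]
        have h1 : (Icc ⌈τ - η⌉ ⌊τ + η⌋).card ≤ 1 := by
          have h2 := icc_card τ η hη0
          have h3 : ((Icc ⌈τ - η⌉ ⌊τ + η⌋).card : ℝ) < 2 := by linarith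
          have h4 : (Icc ⌈τ - η⌉ ⌊τ + η⌋).card < 2 := by exact_mod_cast h3
          omega
        have h2 : ((Icc ⌈τ - η⌉ ⌊τ + η⌋).card : ℝ) ≤ 1 := by exact_mod_cast h1
        have h3 : (g : ℝ) * ((Icc ⌈τ - η⌉ ⌊τ + η⌋).card : ℝ) ≤ g * 1 := mul_le_mul_of_nonneg_left h2 hgR.le
        linarith
      · have h1 : Icc ⌈τ - η⌉ ⌊τ + η⌋ = ∅ := by
          rw [Finset.eq_empty_iff_forall_notMem]
          intro w hwm
          rw [mem_Icc, Int.ceil_le, Int.le_floor] at hwm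
          exact hw ⟨w, abs_le.2 ⟨by linarith [hwm.1], by linarith [hwm.2]⟩⟩
        rw [h1, card_empty, Nat.cast_zero, mul_zero] at hcR
        linarith

end Pool.Agent.H951R3
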