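import Mathlib
import Pool.Agent.H951R3.C1

set_option autoImplicit false

namespace Pool.Agent.H951R3

open Finset

theorem count_one (θ γ η : ℝ) (hη : 0 ≤ η) (n : ℕ) (hn : 1 ≤ n) (ρ : ℚ)
    (h1 : |θ - ρ| ≤ 1 / (((n : ℝ) + 1) * ρ.den)) (h2 : ρ.den ≤ n) :
    (open Classical in (((Icc 1 n).filter (fun t : ℕ => ∃ z : ℤ, |(t : ℝ) * θ - γ - z| ≤ η)).card : ℝ))
      ≤ 4 * n * η + 6 * n / ρ.den := by
  classical
  set q : ℕ := ρ.den with hq
  have hq0 : 0 < q := ρ.den_pos
  have hqR : (0 : ℝ) < q := by exact_mod_cast hq0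
  have hnR : (1 : ℝ) ≤ n := by exact_mod_cast hn
  have hqn : (q : ℝ) ≤ n := by exact_mod_cast h2
  set p : ℤ := ρ.num with hp
  have hρ : (ρ : ℝ) = p / q := by exact_mod_cast Rat.cast_def (K := ℝ) ρ
  set S := (Icc 1 n).filter (fun t : ℕ => ∃ z : ℤ, |(t : ℝ) * θ - γ - z| ≤ η) with hS
  set f : ℕ → ℤ := fun t => t * p - q * round ((t : ℝ) * θ - γ) with hf
  set W := Icc ⌈(q : ℝ) * γ - (q * η + 1)⌉ ⌊(q : ℝ) * γ + (q * η + 1)⌋ with hW
  have hmaps : ∀ t ∈ S, f t ∈ W := by
    intro t ht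
    rw [hS, mem_filter, mem_Icc] at ht
    obtain ⟨⟨ht1, htn⟩, z, hz⟩ := ht
    have hr : |(t : ℝ) * θ - γ - round ((t : ℝ) * θ - γ)| ≤ η := (round_le _ z).trans hz
    have htR : (t : ℝ) ≤ n := by exact_mod_cast htn
    have ht0 : (0 : ℝ) ≤ t := Nat.cast_nonneg _
    have e1 : ((f t : ℤ) : ℝ) - q * γ = q * (((t : ℝ) * θ - γ - round ((t : ℝ) * θ - γ)) - t * (θ - ρ)) := by
      rw [hρ]
      simp only [hf]
      push_cast
      field_simp
      ring
    have e2 : |(t : ℝ) * (θ - ρ)| ≤ 1 / q := by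
      rw [abs_mul, abs_of_nonneg ht0]
      calc (t : ℝ) * |θ - ρ| ≤ n * (1 / (((n : ℝ) + 1) * q)) := by gcongr
        _ = (n / (n + 1)) * (1 / q) := by field_simp
        _ ≤ 1 * (1 / q) := by
          apply mul_le_mul_of_nonneg_right _ (by positivity)
          rw [div_le_one (by positivity)]; linarith
        _ = 1 / q := one_mul _
    have e3 : |((f t : ℤ) : ℝ) - q * γ| ≤ q * η + 1 := by
      rw [e1, abs_mul, abs_of_pos hqR]
      calc (q : ℝ) * |((t : ℝ) * θ - γ - round ((t : ℝ) * θ - γ)) - t * (θ - ρ)|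
          ≤ q * (η + 1 / q) := by
            apply mul_le_mul_of_nonneg_left _ hqR.le
            exact (abs_sub _ _).trans (add_le_add hr e2)
        _ = q * η + 1 := by field_simp
    rw [abs_le] at e3
    rw [hW, mem_Icc, Int.ceil_le, Int.le_floor]
    constructor <;> linarith [e3.1, e3.2]
  have hfib : ∀ w ∈ W, (S.filter (fun t => f t = w)).card ≤ n / q + 1 := by
    intro w _
    have hmap : Set.MapsTo (fun t : ℕ => t / q) (S.filter (fun t => f t = w)) (range (n / q + 1) : Finset ℕ) := by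
      intro t ht
      rw [coe_filter, Set.mem_ofPred_eq, hS, mem_filter, mem_Icc] at ht
      simp only [coe_range, Set.mem_Iio]
      exact Nat.lt_succ_of_le (Nat.div_le_div_right ht.1.1.2)
    have hinj : Set.InjOn (fun t : ℕ => t / q) (S.filter (fun t => f t = w)) := by
      intro t ht t' ht' htt
      rw [coe_filter, Set.mem_ofPred_eq] at ht ht'
      have e1 : f t = f t' := by rw [ht.2, ht'.2]
      simp only [hf] at e1
      have hcop : IsCoprime (q : ℤ) p := by
        rw [Int.isCoprime_iff_gcd_eq_one, Int.gcd_comm]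
        have := ρ.reduced
        rw [Nat.coprime_iff_gcd_eq_one] at this
        rw [Int.gcd_def]
        simpa using this
      have hdvd : (q : ℤ) ∣ ((t : ℤ) - t') := by
        apply hcop.dvd_of_dvd_mul_right
        exact ⟨round ((t : ℝ) * θ - γ) - round ((t' : ℝ) * θ - γ), by linear_combination e1⟩
      have hlt : |(t : ℤ) - t'| < q := by
        have a1 := Nat.div_add_mod t q
        have a2 := Nat.div_add_mod t' q
        have a3 := Nat.mod_lt t hq0
        have a4 := Nat.mod_lt t' hq0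
        simp only at htt
        rw [htt] at a1
        rw [abs_lt]
        constructor <;> omega
      have h0 := Int.eq_zero_of_abs_lt_dvd hdvd hlt
      omega
    have := Finset.card_le_card_of_injOn _ hmap hinj
    rwa [card_range] at this
  have hcard := Finset.card_le_mul_card_image_of_maps_to hmaps (n / q + 1) hfib
  have hWc : (W.card : ℝ) ≤ 2 * (q * η + 1) + 1 := icc_card _ _ (by positivity)
  have hdiv : (((n / q + 1 : ℕ)) : ℝ) ≤ 2 * (n / q) := by
    have h3 : ((n / q : ℕ) : ℝ) ≤ (n : ℝ) / q := Nat.cast_div_le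
    have h4 : (1 : ℝ) ≤ (n : ℝ) / q := by rw [le_div_iff₀ hqR]; linarith
    push_cast
    linarith
  calc (S.card : ℝ) ≤ (((n / q + 1) * W.card : ℕ) : ℝ) := by exact_mod_cast hcard
    _ = ((n / q + 1 : ℕ) : ℝ) * W.card := by push_cast; ring
    _ ≤ (2 * (n / q)) * (2 * (q * η + 1) + 1) := by
        apply mul_le_mul hdiv hWc (Nat.cast_nonneg _) (by positivity)
    _ = 4 * n * η + 6 * n / q := by field_simp; ring

end Pool.Agent.H951R3
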