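import Mathlib
import Pool.Agent.H951R3.C2

set_option autoImplicit false

namespace Pool.Agent.H951R3

open Finset

/-- the Diophantine lower bound -/
def Dio {s : ℕ} (α : Fin s → ℝ) (c : ℝ) : Prop :=
  ∀ B : Fin s → ℤ, B ≠ 0 → ∀ z : ℤ, c ≤ |(∑ i, (B i : ℝ) * α i) - z| * (∏ i, max |(B i : ℝ)| 2) ^ 2

/-- the linear form at a vector of naturals -/
noncomputable def th {s : ℕ} (α : Fin s → ℝ) (a : Fin s → ℕ) : ℝ := ∑ i, (a i : ℝ) * α i

/-- the set of pairs `(u, u')` for one value of the gcd -/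
noncomputable def Sg {s : ℕ} (α : Fin s → ℝ) (a a' : Fin s → ℕ) (j j' g : ℕ) (ε : ℝ) : Finset (ℕ × ℕ) := by
  classical
  exact ((Icc 1 (2 ^ (j + 1) / g)) ×ˢ (Icc 1 (2 ^ (j' + 1) / g))).filter
    (fun x => ¬ (∀ i, x.2 * a i = x.1 * a' i) ∧
      ∃ z : ℤ, |(z : ℝ) - ((x.2 : ℝ) * th α a - (x.1 : ℝ) * th α a')| ≤ ε / g)

theorem mem_Sg {s : ℕ} (α : Fin s → ℝ) (a a' : Fin s → ℕ) (j j' g : ℕ) (ε : ℝ) (x : ℕ × ℕ) :
    x ∈ Sg α a a' j j' g ε ↔ ((1 ≤ x.1 ∧ x.1 ≤ 2 ^ (j + 1) / g) ∧ (1 ≤ x.2 ∧ x.2 ≤ 2 ^ (j' + 1) / g)) ∧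
      ¬ (∀ i, x.2 * a i = x.1 * a' i) ∧
      ∃ z : ℤ, |(z : ℝ) - ((x.2 : ℝ) * th α a - (x.1 : ℝ) * th α a')| ≤ ε / g := by
  classical
  unfold Sg
  simp only [mem_filter, mem_product, mem_Icc]

theorem prod_bound {s : ℕ} (B : Fin s → ℤ) (X : ℝ) (hX : 2 ≤ X) (h : ∀ i, |(B i : ℝ)| ≤ X) :
    ∏ i, max |(B i : ℝ)| 2 ≤ X ^ s := by
  calc ∏ i, max |(B i : ℝ)| 2 ≤ ∏ _i : Fin s, X :=
        Finset.prod_le_prod (fun i _ => by positivity) (fun i _ => max_le (h i) hX)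
    _ = X ^ s := by simp

theorem q_lower {s : ℕ} (hs : 1 ≤ s) (α : Fin s → ℝ) (c : ℝ) (hc : 0 < c) (hdio : Dio α c)
    (a a' : Fin s → ℕ) (l : ℕ) (ha2 : ∀ i, 2 ≤ a i) (hal : ∀ i, a i ≤ 2 ^ l) (hal' : ∀ i, a' i ≤ 2 ^ l)
    (hl : 1 ≤ l) (j j' g : ℕ) (hjj : j' ≤ j) (hg : 1 ≤ g) (ε : ℝ) (hε0 : 0 ≤ ε)
    (hε : ε ≤ 8 * 2 ^ (j - j'))
    (x : ℕ × ℕ) (hx : x ∈ Sg α a a' j j' g ε) (ρ : ℚ)
    (h1 : |th α a - ρ| ≤ 1 / ((((2 ^ (j' + 1) / g : ℕ) : ℝ) + 1) * ρ.den)) :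
    c ^ (2 * s + 2) * 2 ^ j ≤ 2 ^ (2 * s + 4) * 2 ^ (4 * s * (s + 1) * l)
      * ((2 : ℝ) ^ (j - j') * ρ.den) ^ (4 * s ^ 2 + 4 * s + 2) := by
  rw [mem_Sg] at hx
  obtain ⟨⟨⟨hx1, hx1'⟩, hx2, hx2'⟩, hne, z, hz⟩ := hx
  set U : ℕ := 2 ^ (j + 1) / g with hU
  set U' : ℕ := 2 ^ (j' + 1) / g with hU'
  set q : ℕ := ρ.den with hq
  have hU1 : 1 ≤ U := hx1.trans hx1'
  have hU1' : 1 ≤ U' := hx2.trans hx2'
  have hUU : U' ≤ U := Nat.div_le_div_right (Nat.pow_le_pow_right (by norm_num) (by omega))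
  have hgR : (0 : ℝ) < g := by exact_mod_cast hg
  have hUR : (1 : ℝ) ≤ U := by exact_mod_cast hU1
  have hUR' : (1 : ℝ) ≤ U' := by exact_mod_cast hU1'
  have hq0 : 0 < q := ρ.den_pos
  have hqR : (1 : ℝ) ≤ q := by exact_mod_cast hq0
  have h2l : (2 : ℝ) ≤ 2 ^ l := le_self_pow₀ (by norm_num) (by omega)
  -- (1)
  have k1 : c ≤ (ε / g) * ((U * 2 ^ l) ^ s) ^ 2 := by
    set B : Fin s → ℤ := fun i => (x.2 : ℤ) * a i - x.1 * a' i with hB
    have hB0 : B ≠ 0 := by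
      intro h0
      apply hne
      intro i
      have := congrFun h0 i
      simp only [hB, Pi.zero_apply] at this
      have h2 : (x.2 : ℤ) * a i = x.1 * a' i := by linarith
      exact_mod_cast h2
    have h3 := hdio B hB0 z
    have h4 : (∑ i, (B i : ℝ) * α i) = (x.2 : ℝ) * th α a - (x.1 : ℝ) * th α a' := by
      unfold th
      rw [mul_sum, mul_sum, ← sum_sub_distrib]
      apply sum_congr rfl
      intro i _
      simp only [hB]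
      push_cast
      ring
    rw [h4, abs_sub_comm] at h3
    have h5 : ∀ i, |(B i : ℝ)| ≤ U * 2 ^ l := by
      intro i
      have p1 : ((x.2 : ℕ) : ℝ) ≤ U := by exact_mod_cast hx2'.trans hUU
      have p2 : ((x.1 : ℕ) : ℝ) ≤ U := by exact_mod_cast hx1'
      have p3 : ((a i : ℕ) : ℝ) ≤ 2 ^ l := by exact_mod_cast hal i
      have p4 : ((a' i : ℕ) : ℝ) ≤ 2 ^ l := by exact_mod_cast hal' i
      have p5 : (x.2 : ℝ) * a i ≤ U * 2 ^ l := mul_le_mul p1 p3 (Nat.cast_nonneg _) (by linarith)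
      have p6 : (x.1 : ℝ) * a' i ≤ U * 2 ^ l := mul_le_mul p2 p4 (Nat.cast_nonneg _) (by linarith)
      have p7 : (0 : ℝ) ≤ (x.2 : ℝ) * a i := by positivity
      have p8 : (0 : ℝ) ≤ (x.1 : ℝ) * a' i := by positivity
      simp only [hB]
      push_cast
      rw [abs_le]
      constructor <;> linarith
    have h6 := prod_bound B (U * 2 ^ l) (by nlinarith) h5
    have h7 : (0 : ℝ) ≤ ∏ i, max |(B i : ℝ)| 2 := Finset.prod_nonneg (fun i _ => by positivity)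
    calc c ≤ _ := h3
      _ ≤ (ε / g) * ((U * 2 ^ l) ^ s) ^ 2 := by
        apply mul_le_mul hz (pow_le_pow_left₀ h7 h6 2) (by positivity) (by positivity)
  -- 1/g < U / 2^j
  have k2 : (1 : ℝ) / g ≤ U / 2 ^ j := by
    have h3 : 2 ^ (j + 1) < g * (U + 1) := by
      rw [hU]; exact Nat.lt_mul_div_succ _ (by omega)
    have h4 : (2 : ℝ) ^ (j + 1) < g * (U + 1) := by exact_mod_cast h3
    rw [div_le_div_iff₀ hgR (by positivity), one_mul]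
    rw [pow_succ] at h4
    nlinarith
  have k1' : c * 2 ^ j' ≤ 8 * U ^ (2 * s + 1) * 2 ^ (2 * s * l) := by
    have e1 : (ε / g) ≤ (8 * 2 ^ (j - j')) * (U / 2 ^ j) := by
      rw [div_eq_mul_one_div]
      exact mul_le_mul hε k2 (by positivity) (by positivity)
    have e2 : c ≤ (8 * 2 ^ (j - j')) * (U / 2 ^ j) * ((U * 2 ^ l) ^ s) ^ 2 :=
      k1.trans (mul_le_mul_of_nonneg_right e1 (by positivity))
    have e3 : (2 : ℝ) ^ j = 2 ^ (j - j') * 2 ^ j' := by rw [← pow_add]; congr 1; omega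
    have e4 : (8 * 2 ^ (j - j')) * ((U : ℝ) / 2 ^ j) * ((U * 2 ^ l) ^ s) ^ 2
        = (8 * U ^ (2 * s + 1) * 2 ^ (2 * s * l)) / 2 ^ j' := by
      rw [e3]
      have : ((2 : ℝ) ^ l) ^ s = 2 ^ (s * l) := by rw [← pow_mul, mul_comm]
      rw [mul_pow, mul_pow, this, ← pow_mul, ← pow_mul]
      have e5 : s * l * 2 = 2 * s * l := by ring
      have e6 : 2 * s + 1 = s * 2 + 1 := by ring
      rw [e5, e6, pow_succ]
      field_simp
    rw [e4, le_div_iff₀ (by positivity)] at e2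
    exact e2
  -- (2)
  have k3 : (U : ℝ) ≤ 2 ^ (j - j' + 1) * U' := by
    have h3 : 2 ^ (j' + 1) < g * (U' + 1) := by
      rw [hU']; exact Nat.lt_mul_div_succ _ (by omega)
    have h4 : (2 : ℝ) ^ (j' + 1) < g * (U' + 1) := by exact_mod_cast h3
    have h5 : U * g ≤ 2 ^ (j + 1) := by rw [hU]; exact Nat.div_mul_le_self _ _
    have h6 : (U : ℝ) * g ≤ 2 ^ (j + 1) := by exact_mod_cast h5
    have e3 : (2 : ℝ) ^ (j + 1) = 2 ^ (j - j') * 2 ^ (j' + 1) := by rw [← pow_add]; congr 1; omega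
    have h7 : (U : ℝ) * g ≤ 2 ^ (j - j') * (g * (2 * U')) := by
      rw [e3] at h6
      refine h6.trans (mul_le_mul_of_nonneg_left ?_ (by positivity))
      nlinarith
    have h8 : (U : ℝ) * g ≤ (2 ^ (j - j' + 1) * U') * g := by
      refine h7.trans (le_of_eq ?_)
      rw [pow_succ]; ring
    exact le_of_mul_le_mul_right h8 hgR
  -- (3)
  have k4 : c * U' ≤ q ^ (2 * s) * 2 ^ (2 * s * l) := by
    set B : Fin s → ℤ := fun i => (q : ℤ) * a i with hB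
    have hB0 : B ≠ 0 := by
      intro h0
      have := congrFun h0 ⟨0, by omega⟩
      simp only [hB, Pi.zero_apply] at this
      rcases mul_eq_zero.1 this with h | h
      · have : q = 0 := by exact_mod_cast h
        omega
      · have h5 : a ⟨0, by omega⟩ = 0 := by exact_mod_cast h
        have := ha2 ⟨0, by omega⟩
        omega
    have h3 := hdio B hB0 ρ.num
    have h4 : (∑ i, (B i : ℝ) * α i) = (q : ℝ) * th α a := by
      unfold th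
      rw [mul_sum]
      apply sum_congr rfl
      intro i _
      simp only [hB]
      push_cast
      ring
    have h5 : |(∑ i, (B i : ℝ) * α i) - ρ.num| ≤ 1 / ((U' : ℝ) + 1) := by
      rw [h4]
      have hρ : (ρ : ℝ) = ρ.num / q := by exact_mod_cast Rat.cast_def (K := ℝ) ρ
      have e1 : (q : ℝ) * th α a - ρ.num = q * (th α a - ρ) := by
        rw [hρ]; field_simp
      rw [e1, abs_mul, abs_of_nonneg (by linarith : (0 : ℝ) ≤ q)]
      calc (q : ℝ) * |th α a - ρ| ≤ q * (1 / (((U' : ℝ) + 1) * q)) :=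
            mul_le_mul_of_nonneg_left h1 (by linarith)
        _ = 1 / ((U' : ℝ) + 1) := by
          have : (q : ℝ) ≠ 0 := by linarith
          field_simp
    have h6 : ∀ i, |(B i : ℝ)| ≤ q * 2 ^ l := by
      intro i
      have p3 : ((a i : ℕ) : ℝ) ≤ 2 ^ l := by exact_mod_cast hal i
      simp only [hB]
      push_cast
      rw [abs_of_nonneg (by positivity)]
      exact mul_le_mul_of_nonneg_left p3 (by linarith)
    have h7 := prod_bound B (q * 2 ^ l) (by nlinarith) h6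
    have h8 : (0 : ℝ) ≤ ∏ i, max |(B i : ℝ)| 2 := Finset.prod_nonneg (fun i _ => by positivity)
    have h9 : c ≤ (1 / ((U' : ℝ) + 1)) * ((q * 2 ^ l) ^ s) ^ 2 := by
      refine h3.trans ?_
      apply mul_le_mul h5 (pow_le_pow_left₀ h8 h7 2) (by positivity) (by positivity)
    have h10 : c * ((U' : ℝ) + 1) ≤ ((q * 2 ^ l) ^ s) ^ 2 := by
      rw [one_div, inv_mul_eq_div, le_div_iff₀ (by positivity)] at h9
      exact h9
    have h11 : (((q : ℝ) * 2 ^ l) ^ s) ^ 2 = q ^ (2 * s) * 2 ^ (2 * s * l) := by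
      rw [mul_pow, mul_pow, ← pow_mul, ← pow_mul, ← pow_mul]
      congr 1
      · congr 1; ring
      · congr 1; ring
    rw [← h11]
    nlinarith
  -- combine
  have hΔ : (1 : ℝ) ≤ 2 ^ (j - j') := one_le_pow₀ (by norm_num)
  have k5 : c * U ≤ 2 ^ (j - j' + 1) * (q ^ (2 * s) * 2 ^ (2 * s * l)) := by
    calc c * (U : ℝ) ≤ c * (2 ^ (j - j' + 1) * U') := mul_le_mul_of_nonneg_left k3 hc.le
      _ = 2 ^ (j - j' + 1) * (c * U') := by ring
      _ ≤ _ := mul_le_mul_of_nonneg_left k4 (by positivity)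
  have k6 : (c * U) ^ (2 * s + 1) ≤ (2 ^ (j - j' + 1) * (q ^ (2 * s) * 2 ^ (2 * s * l))) ^ (2 * s + 1) :=
    pow_le_pow_left₀ (by positivity) k5 _
  have k7 : c ^ (2 * s + 2) * 2 ^ j' ≤ 8 * 2 ^ (2 * s * l) *
      (2 ^ (j - j' + 1) * (q ^ (2 * s) * 2 ^ (2 * s * l))) ^ (2 * s + 1) := by
    calc c ^ (2 * s + 2) * 2 ^ j' = c ^ (2 * s + 1) * (c * 2 ^ j') := by ring
      _ ≤ c ^ (2 * s + 1) * (8 * U ^ (2 * s + 1) * 2 ^ (2 * s * l)) :=
          mul_le_mul_of_nonneg_left k1' (by positivity)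
      _ = 8 * 2 ^ (2 * s * l) * (c * U) ^ (2 * s + 1) := by rw [mul_pow]; ring
      _ ≤ _ := mul_le_mul_of_nonneg_left k6 (by positivity)
  have e3 : (2 : ℝ) ^ j = 2 ^ (j - j') * 2 ^ j' := by rw [← pow_add]; congr 1; omega
  have hD1 : (1 : ℝ) ≤ 2 ^ (j - j') := hΔ
  set D : ℝ := 2 ^ (j - j') with hD
  have e4 : (2 : ℝ) ^ (j - j' + 1) = D * 2 := by rw [pow_succ]
  rw [e4] at k7
  have e5 : 8 * 2 ^ (2 * s * l) * (D * 2 * ((q : ℝ) ^ (2 * s) * 2 ^ (2 * s * l))) ^ (2 * s + 1)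
      = 2 ^ (2 * s + 4) * 2 ^ (4 * s * (s + 1) * l) * (D ^ (2 * s + 1) * (q : ℝ) ^ (2 * s * (2 * s + 1))) := by
    have a1 : (2 : ℝ) ^ (4 * s * (s + 1) * l) = 2 ^ (2 * s * l) * (2 ^ (2 * s * l)) ^ (2 * s + 1) := by
      rw [← pow_mul, ← pow_add]; congr 1; ring
    have a2 : (q : ℝ) ^ (2 * s * (2 * s + 1)) = (q ^ (2 * s)) ^ (2 * s + 1) := by rw [pow_mul]
    rw [a1, a2, mul_pow, mul_pow, mul_pow]
    have a3 : (2 : ℝ) ^ (2 * s + 4) = 8 * 2 ^ (2 * s + 1) := by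
      rw [show 2 * s + 4 = (2 * s + 1) + 3 by ring, pow_add]; norm_num; ring
    rw [a3]
    ring
  rw [e5] at k7
  have k8 : D * (D ^ (2 * s + 1) * (q : ℝ) ^ (2 * s * (2 * s + 1))) ≤ (D * q) ^ (4 * s ^ 2 + 4 * s + 2) := by
    have a1 : (D * q) ^ (4 * s ^ 2 + 4 * s + 2) = (D * q) ^ (2 * s + 2) * (D * q) ^ (2 * s * (2 * s + 1)) := by
      rw [← pow_add]; congr 1; ring
    have a2 : D * (D ^ (2 * s + 1) * (q : ℝ) ^ (2 * s * (2 * s + 1)))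
        = D ^ (2 * s + 2) * (q : ℝ) ^ (2 * s * (2 * s + 1)) := by ring
    rw [a2, a1]
    apply mul_le_mul
    · exact pow_le_pow_left₀ (by linarith) (by nlinarith) _
    · exact pow_le_pow_left₀ (by linarith) (by nlinarith) _
    · positivity
    · positivity
  rw [e3]
  calc c ^ (2 * s + 2) * (D * 2 ^ j') = D * (c ^ (2 * s + 2) * 2 ^ j') := by ring
    _ ≤ D * (2 ^ (2 * s + 4) * 2 ^ (4 * s * (s + 1) * l) * (D ^ (2 * s + 1) * (q : ℝ) ^ (2 * s * (2 * s + 1)))) :=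
        mul_le_mul_of_nonneg_left k7 (by linarith)
    _ = 2 ^ (2 * s + 4) * 2 ^ (4 * s * (s + 1) * l) * (D * (D ^ (2 * s + 1) * (q : ℝ) ^ (2 * s * (2 * s + 1)))) := by ring
    _ ≤ _ := mul_le_mul_of_nonneg_left k8 (by positivity)

/-- the saving -/
noncomputable def YY (s : ℕ) (c : ℝ) (l j : ℕ) : ℝ :=
  (2 ^ (2 * s + 4) * 2 ^ (4 * s * (s + 1) * l) / (c ^ (2 * s + 2) * 2 ^ j)) ^ ((1 : ℝ) / ((4 * s ^ 2 + 4 * s + 2 : ℕ) : ℝ))

theorem YY_nonneg (s : ℕ) (c : ℝ) (hc : 0 < c) (l j : ℕ) : 0 ≤ YY s c l j := by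
  unfold YY; positivity

theorem le_YY (s : ℕ) (c : ℝ) (hc : 0 < c) (l j : ℕ) (X : ℝ) (hX : 0 < X)
    (h : c ^ (2 * s + 2) * 2 ^ j ≤ 2 ^ (2 * s + 4) * 2 ^ (4 * s * (s + 1) * l) * X ^ (4 * s ^ 2 + 4 * s + 2)) :
    1 / X ≤ YY s c l j := by
  unfold YY
  set F : ℕ := 4 * s ^ 2 + 4 * s + 2 with hF
  have hF0 : F ≠ 0 := by omega
  have h1 : (1 / X) ^ F ≤ 2 ^ (2 * s + 4) * 2 ^ (4 * s * (s + 1) * l) / (c ^ (2 * s + 2) * 2 ^ j) := by
    rw [div_pow, one_pow, div_le_div_iff₀ (by positivity) (by positivity), one_mul]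
    exact h
  have h2 : 1 / X = ((1 / X) ^ F) ^ ((1 : ℝ) / (F : ℝ)) := by
    rw [one_div (F : ℝ)]
    exact (Real.pow_rpow_inv_natCast (by positivity) hF0).symm
  rw [h2]
  exact Real.rpow_le_rpow (by positivity) h1 (by positivity)

/-- the count of the pairs `(u, u')` -/
theorem Sg_card {s : ℕ} (hs : 1 ≤ s) (α : Fin s → ℝ) (c : ℝ) (hc : 0 < c) (hdio : Dio α c)
    (a a' : Fin s → ℕ) (l : ℕ) (ha2 : ∀ i, 2 ≤ a i) (hal : ∀ i, a i ≤ 2 ^ l) (hal' : ∀ i, a' i ≤ 2 ^ l)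
    (hl : 1 ≤ l) (j j' g : ℕ) (hjj : j' ≤ j) (hg : 1 ≤ g) (ε : ℝ) (hε0 : 0 ≤ ε)
    (hε : ε ≤ 8 * 2 ^ (j - j')) :
    ((Sg α a a' j j' g ε).card : ℝ) ≤ (2 ^ (j + 1) / g) * (4 * (2 ^ (j' + 1) / g) * (ε / g)
      + 6 * (2 ^ (j' + 1) / g) * (2 ^ (j - j') * YY s c l j)) := by
  classical
  have hgR : (0 : ℝ) < g := by exact_mod_cast hg
  have hY := YY_nonneg s c hc l j
  rcases (Sg α a a' j j' g ε).eq_empty_or_nonempty with he | ⟨x0, hx0⟩
  · rw [he, card_empty, Nat.cast_zero]; positivity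
  set U : ℕ := 2 ^ (j + 1) / g with hU
  set U' : ℕ := 2 ^ (j' + 1) / g with hU'
  have hx0' := (mem_Sg α a a' j j' g ε x0).1 hx0
  have hU1' : 1 ≤ U' := hx0'.1.2.1.trans hx0'.1.2.2
  obtain ⟨ρ, hρ1, hρ2⟩ := Real.exists_rat_abs_sub_le_and_den_le (th α a) (n := U') (by omega)
  have hq := q_lower hs α c hc hdio a a' l ha2 hal hal' hl j j' g hjj hg ε hε0 hε x0 hx0 ρ hρ1
  have hq0 : 0 < ρ.den := ρ.den_pos
  have hqR : (0 : ℝ) < ρ.den := by exact_mod_cast hq0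
  have h1 := le_YY s c hc l j ((2 : ℝ) ^ (j - j') * ρ.den) (by positivity) hq
  have h1' : (1 : ℝ) / ρ.den ≤ 2 ^ (j - j') * YY s c l j := by
    have : (1 : ℝ) / ρ.den = 2 ^ (j - j') * (1 / ((2 : ℝ) ^ (j - j') * ρ.den)) := by field_simp
    rw [this]
    exact mul_le_mul_of_nonneg_left h1 (by positivity)
  -- fibre count
  have hsub : (Sg α a a' j j' g ε).card ≤ ∑ u ∈ Icc 1 U, ((Icc 1 U').filter
      (fun t : ℕ => ∃ z : ℤ, |(t : ℝ) * th α a - (u * th α a') - z| ≤ ε / g)).card := by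
    have h2 : (Sg α a a' j j' g ε) ⊆ (Icc 1 U).biUnion (fun u => ((Icc 1 U').filter
      (fun t : ℕ => ∃ z : ℤ, |(t : ℝ) * th α a - (u * th α a') - z| ≤ ε / g)).image (fun t => (u, t))) := by
      intro x hx
      have hx' := (mem_Sg α a a' j j' g ε x).1 hx
      rw [mem_biUnion]
      refine ⟨x.1, mem_Icc.2 hx'.1.1, ?_⟩
      rw [mem_image]
      refine ⟨x.2, ?_, rfl⟩
      rw [mem_filter, mem_Icc]
      obtain ⟨z, hz⟩ := hx'.2.2
      refine ⟨hx'.1.2, z, ?_⟩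
      rw [abs_sub_comm] at hz
      exact hz
    refine (card_le_card h2).trans (card_biUnion_le.trans ?_)
    exact sum_le_sum (fun u _ => card_image_le)
  have hper : ∀ u ∈ Icc 1 U, ((((Icc 1 U').filter
      (fun t : ℕ => ∃ z : ℤ, |(t : ℝ) * th α a - (u * th α a') - z| ≤ ε / g)).card : ℕ) : ℝ)
      ≤ 4 * U' * (ε / g) + 6 * U' * (2 ^ (j - j') * YY s c l j) := by
    intro u _
    have h3 := count_one (th α a) (u * th α a') (ε / g) (by positivity) U' hU1' ρ hρ1 hρ2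
    have h4 : (6 : ℝ) * U' / ρ.den = 6 * U' * (1 / ρ.den) := by ring
    rw [h4] at h3
    have h5 : (6 : ℝ) * U' * (1 / ρ.den) ≤ 6 * U' * (2 ^ (j - j') * YY s c l j) :=
      mul_le_mul_of_nonneg_left h1' (by positivity)
    refine le_trans ?_ (h3.trans (add_le_add_right h5 _))
    apply le_of_eq
    congr!
  have hUR : (U : ℝ) ≤ 2 ^ (j + 1) / g := by
    have : ((2 ^ (j + 1) / g : ℕ) : ℝ) ≤ ((2 ^ (j + 1) : ℕ) : ℝ) / g := Nat.cast_div_le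
    push_cast at this
    exact this
  have hUR' : (U' : ℝ) ≤ 2 ^ (j' + 1) / g := by
    have : ((2 ^ (j' + 1) / g : ℕ) : ℝ) ≤ ((2 ^ (j' + 1) : ℕ) : ℝ) / g := Nat.cast_div_le
    push_cast at this
    exact this
  calc ((Sg α a a' j j' g ε).card : ℝ) ≤ ((∑ u ∈ Icc 1 U, ((Icc 1 U').filter
      (fun t : ℕ => ∃ z : ℤ, |(t : ℝ) * th α a - (u * th α a') - z| ≤ ε / g)).card : ℕ) : ℝ) := by
        exact_mod_cast hsub
    _ = ∑ u ∈ Icc 1 U, ((((Icc 1 U').filter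
      (fun t : ℕ => ∃ z : ℤ, |(t : ℝ) * th α a - (u * th α a') - z| ≤ ε / g)).card : ℕ) : ℝ) := by
        push_cast; rfl
    _ ≤ ∑ _u ∈ Icc 1 U, (4 * U' * (ε / g) + 6 * U' * (2 ^ (j - j') * YY s c l j)) := sum_le_sum hper
    _ = U * (4 * U' * (ε / g) + 6 * U' * (2 ^ (j - j') * YY s c l j)) := by
        rw [sum_const, Nat.card_Icc, nsmul_eq_mul]; simp
    _ ≤ _ := by gcongr

end Pool.Agent.H951R3
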