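import Mathlib
import Pool.Agent.H951R3.C3

set_option autoImplicit false

namespace Pool.Agent.H951R3

open Finset

theorem sum_inv_sq (G : ℕ) : ∑ g ∈ Icc 1 G, (1 : ℝ) / (g : ℝ) ^ 2 ≤ 2 := by
  have h : ∀ G : ℕ, 1 ≤ G → ∑ g ∈ Icc 1 G, (1 : ℝ) / (g : ℝ) ^ 2 ≤ 2 - 1 / G := by
    intro G hG
    induction G, hG using Nat.le_induction with
    | base => norm_num
    | succ n hn ih =>
      rw [sum_Icc_succ_top (by omega)]
      have hnR : (1 : ℝ) ≤ n := by exact_mod_cast hn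
      have h1 : (1 : ℝ) / ((n + 1 : ℕ) : ℝ) ^ 2 ≤ 1 / n - 1 / ((n + 1 : ℕ) : ℝ) := by
        push_cast
        rw [div_sub_div _ _ (by positivity) (by positivity), div_le_div_iff₀ (by positivity) (by positivity)]
        nlinarith
      linarith
  rcases Nat.eq_zero_or_pos G with h0 | h0
  · subst h0; norm_num
  · have h1 := h G h0
    have h2 : (0 : ℝ) ≤ 1 / G := by positivity
    linarith

theorem sum_inv (n : ℕ) : ∑ g ∈ Icc (1 : ℕ) (2 ^ n), (1 : ℝ) / (g : ℝ) ≤ n + 1 := by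
  induction n with
  | zero => norm_num
  | succ n ih =>
    have h1 : Icc (1 : ℕ) (2 ^ (n + 1)) = Icc (1 : ℕ) (2 ^ n) ∪ Ioc (2 ^ n) (2 ^ (n + 1)) := by
      ext x
      simp only [mem_union, mem_Icc, mem_Ioc]
      have : 2 ^ (n + 1) = 2 * 2 ^ n := by ring
      have h2 : 1 ≤ 2 ^ n := Nat.one_le_two_pow
      omega
    have h2 : Disjoint (Icc (1 : ℕ) (2 ^ n)) (Ioc (2 ^ n) (2 ^ (n + 1))) := by
      rw [Finset.disjoint_left]
      intro x hx hx'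
      simp only [mem_Icc, mem_Ioc] at hx hx'
      omega
    rw [h1, sum_union h2]
    have h3 : ∑ g ∈ Ioc ((2 : ℕ) ^ n) (2 ^ (n + 1)), (1 : ℝ) / (g : ℝ) ≤ 1 := by
      calc ∑ g ∈ Ioc ((2 : ℕ) ^ n) (2 ^ (n + 1)), (1 : ℝ) / (g : ℝ)
          ≤ ∑ _g ∈ Ioc ((2 : ℕ) ^ n) (2 ^ (n + 1)), (1 : ℝ) / 2 ^ n := by
            apply sum_le_sum
            intro g hg
            rw [mem_Ioc] at hg
            apply one_div_le_one_div_of_le (by positivity)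
            exact_mod_cast hg.1.le
        _ = 1 := by
            rw [sum_const, Nat.card_Ioc, nsmul_eq_mul]
            have : 2 ^ (n + 1) - 2 ^ n = 2 ^ n := by rw [pow_succ]; omega
            rw [this]
            push_cast
            field_simp
    push_cast
    linarith

/-- the dyadic block -/
def BB (j : ℕ) : Finset ℕ := Ico (2 ^ j) (2 ^ (j + 1))

theorem mem_BB (j b : ℕ) : b ∈ BB j ↔ 2 ^ j ≤ b ∧ b < 2 ^ (j + 1) := by
  unfold BB; rw [mem_Ico]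

theorem sum_BB (j : ℕ) : ∑ b ∈ BB j, (b : ℝ) ≤ 2 * 4 ^ j := by
  calc ∑ b ∈ BB j, (b : ℝ) ≤ ∑ _b ∈ BB j, (2 : ℝ) ^ (j + 1) := by
        apply sum_le_sum
        intro b hb
        rw [mem_BB] at hb
        exact_mod_cast hb.2.le
    _ = 2 * 4 ^ j := by
        unfold BB
        rw [sum_const, Nat.card_Ico, nsmul_eq_mul]
        have : 2 ^ (j + 1) - 2 ^ j = 2 ^ j := by rw [pow_succ]; omega
        rw [this]
        have h4 : (4 : ℝ) ^ j = 2 ^ j * 2 ^ j := by rw [← mul_pow]; norm_num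
        rw [h4]
        push_cast
        ring

theorem gcd_sum {s : ℕ} (α : Fin s → ℝ) (a a' : Fin s → ℕ) (j j' : ℕ) (R : ℝ) (hR : 0 ≤ R) :
    ∑ b ∈ BB j, ∑ b' ∈ BB j', (open Classical in
      if ¬ (∀ i, (b' / Nat.gcd b b') * a i = (b / Nat.gcd b b') * a' i) ∧
        ∃ w : ℤ, |(w : ℝ) - (((b' / Nat.gcd b b' : ℕ) : ℝ) * th α a - ((b / Nat.gcd b b' : ℕ) : ℝ) * th α a')|
          ≤ R * ((Nat.gcd b b' : ℕ) * ((b / Nat.gcd b b' : ℕ) : ℝ) * ((b' / Nat.gcd b b' : ℕ) : ℝ))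
      then ((Nat.gcd b b' : ℕ) : ℝ) else 0)
    ≤ ∑ g ∈ Icc (1 : ℕ) (2 ^ (j' + 1)), (g : ℝ) * (Sg α a a' j j' g (R * (4 * (2 ^ j * 2 ^ j')))).card := by
  classical
  rw [← sum_product']
  set P := ((BB j) ×ˢ (BB j')).filter (fun x : ℕ × ℕ =>
      ¬ (∀ i, (x.2 / Nat.gcd x.1 x.2) * a i = (x.1 / Nat.gcd x.1 x.2) * a' i) ∧
        ∃ w : ℤ, |(w : ℝ) - (((x.2 / Nat.gcd x.1 x.2 : ℕ) : ℝ) * th α a
          - ((x.1 / Nat.gcd x.1 x.2 : ℕ) : ℝ) * th α a')|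
          ≤ R * ((Nat.gcd x.1 x.2 : ℕ) * ((x.1 / Nat.gcd x.1 x.2 : ℕ) : ℝ) * ((x.2 / Nat.gcd x.1 x.2 : ℕ) : ℝ)))
    with hP
  have e1 : ∑ x ∈ (BB j) ×ˢ (BB j'), (
      if ¬ (∀ i, (x.2 / Nat.gcd x.1 x.2) * a i = (x.1 / Nat.gcd x.1 x.2) * a' i) ∧
        ∃ w : ℤ, |(w : ℝ) - (((x.2 / Nat.gcd x.1 x.2 : ℕ) : ℝ) * th α a
          - ((x.1 / Nat.gcd x.1 x.2 : ℕ) : ℝ) * th α a')|
          ≤ R * ((Nat.gcd x.1 x.2 : ℕ) * ((x.1 / Nat.gcd x.1 x.2 : ℕ) : ℝ) * ((x.2 / Nat.gcd x.1 x.2 : ℕ) : ℝ))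
      then ((Nat.gcd x.1 x.2 : ℕ) : ℝ) else 0) = ∑ x ∈ P, ((Nat.gcd x.1 x.2 : ℕ) : ℝ) := by
    rw [hP, sum_filter]
  have hmaps : ∀ x ∈ P, Nat.gcd x.1 x.2 ∈ Icc (1 : ℕ) (2 ^ (j' + 1)) := by
    intro x hx
    rw [hP, mem_filter, mem_product, mem_BB, mem_BB] at hx
    have h1 : 0 < x.2 := lt_of_lt_of_le (by positivity) hx.1.2.1
    rw [mem_Icc]
    exact ⟨Nat.gcd_pos_of_pos_right _ h1, (Nat.gcd_le_right _ h1).trans hx.1.2.2.le⟩
  have e2 : ∑ x ∈ P, ((Nat.gcd x.1 x.2 : ℕ) : ℝ)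
      = ∑ g ∈ Icc (1 : ℕ) (2 ^ (j' + 1)), ∑ x ∈ P.filter (fun x => Nat.gcd x.1 x.2 = g), ((Nat.gcd x.1 x.2 : ℕ) : ℝ) :=
    (sum_fiberwise_of_maps_to hmaps _).symm
  refine le_trans (le_of_eq ?_) (le_trans (le_of_eq (e1.trans e2)) ?_)
  · apply sum_congr rfl
    intro x _
    congr!
  apply sum_le_sum
  intro g hg
  rw [mem_Icc] at hg
  have hgR : (0 : ℝ) < g := by exact_mod_cast hg.1
  have e3 : ∑ x ∈ P.filter (fun x => Nat.gcd x.1 x.2 = g), ((Nat.gcd x.1 x.2 : ℕ) : ℝ)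
      = g * ((P.filter (fun x => Nat.gcd x.1 x.2 = g)).card : ℝ) := by
    rw [sum_congr rfl (g := fun _ => (g : ℝ)) (fun x hx => by rw [mem_filter] at hx; rw [hx.2])]
    rw [sum_const, nsmul_eq_mul, mul_comm]
  rw [e3]
  apply mul_le_mul_of_nonneg_left _ hgR.le
  have hmap2 : Set.MapsTo (fun x : ℕ × ℕ => (x.1 / g, x.2 / g))
      (P.filter (fun x => Nat.gcd x.1 x.2 = g)) (Sg α a a' j j' g (R * (4 * (2 ^ j * 2 ^ j'))) : Finset (ℕ × ℕ)) := by
    intro x hx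
    rw [coe_filter, Set.mem_ofPred_eq, hP, mem_filter, mem_product, mem_BB, mem_BB] at hx
    obtain ⟨⟨⟨⟨h1, h2⟩, h3, h4⟩, h5, w, hw⟩, hgx⟩ := hx
    rw [hgx] at h5 hw
    have hd1 : g ∣ x.1 := by rw [← hgx]; exact Nat.gcd_dvd_left _ _
    have hd2 : g ∣ x.2 := by rw [← hgx]; exact Nat.gcd_dvd_right _ _
    have hp1 : 0 < x.1 := lt_of_lt_of_le (by positivity) h1
    have hp2 : 0 < x.2 := lt_of_lt_of_le (by positivity) h3
    rw [mem_coe, mem_Sg]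
    refine ⟨⟨⟨?_, ?_⟩, ?_, ?_⟩, h5, w, ?_⟩
    · exact Nat.div_pos (Nat.le_of_dvd hp1 hd1) hg.1
    · exact Nat.div_le_div_right h2.le
    · exact Nat.div_pos (Nat.le_of_dvd hp2 hd2) hg.1
    · exact Nat.div_le_div_right h4.le
    · refine hw.trans ?_
      have c1 : ((x.1 / g : ℕ) : ℝ) = (x.1 : ℝ) / g := Nat.cast_div hd1 hgR.ne'
      have c2 : ((x.2 / g : ℕ) : ℝ) = (x.2 : ℝ) / g := Nat.cast_div hd2 hgR.ne'
      rw [c1, c2]
      have e4 : R * ((g : ℝ) * ((x.1 : ℝ) / g) * ((x.2 : ℝ) / g)) = R * ((x.1 : ℝ) * x.2) / g := by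
        field_simp
      rw [e4]
      apply div_le_div_of_nonneg_right _ hgR.le
      apply mul_le_mul_of_nonneg_left _ hR
      have d1 : (x.1 : ℝ) ≤ 2 ^ (j + 1) := by exact_mod_cast h2.le
      have d2 : (x.2 : ℝ) ≤ 2 ^ (j' + 1) := by exact_mod_cast h4.le
      calc (x.1 : ℝ) * x.2 ≤ 2 ^ (j + 1) * 2 ^ (j' + 1) := by gcongr
        _ = 4 * (2 ^ j * 2 ^ j') := by ring
  have hinj : Set.InjOn (fun x : ℕ × ℕ => (x.1 / g, x.2 / g)) (P.filter (fun x => Nat.gcd x.1 x.2 = g)) := by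
    intro x hx y hy hxy
    rw [coe_filter, Set.mem_ofPred_eq] at hx hy
    have hd1 : g ∣ x.1 := by rw [← hx.2]; exact Nat.gcd_dvd_left _ _
    have hd2 : g ∣ x.2 := by rw [← hx.2]; exact Nat.gcd_dvd_right _ _
    have hd3 : g ∣ y.1 := by rw [← hy.2]; exact Nat.gcd_dvd_left _ _
    have hd4 : g ∣ y.2 := by rw [← hy.2]; exact Nat.gcd_dvd_right _ _
    simp only [Prod.mk.injEq] at hxy
    apply Prod.ext
    · rw [← Nat.div_mul_cancel hd1, ← Nat.div_mul_cancel hd3, hxy.1]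
    · rw [← Nat.div_mul_cancel hd2, ← Nat.div_mul_cancel hd4, hxy.2]
  exact_mod_cast Finset.card_le_card_of_injOn _ hmap2 hinj

theorem block_bound {s : ℕ} (hs : 1 ≤ s) (α : Fin s → ℝ) (c : ℝ) (hc : 0 < c) (hdio : Dio α c)
    (a a' : Fin s → ℕ) (l : ℕ) (ha2 : ∀ i, 2 ≤ a i) (hal : ∀ i, a i ≤ 2 ^ l) (hal' : ∀ i, a' i ≤ 2 ^ l)
    (hl : 1 ≤ l) (j j' : ℕ) (hjj : j' ≤ j) (R : ℝ) (hR : 0 ≤ R) (hR2 : R * 4 ^ j' ≤ 2) :
    ∑ b ∈ BB j, ∑ b' ∈ BB j', ((cp (th α a) (th α a') b b' R).card : ℝ) ≤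
      144 * R * (4 ^ j * 4 ^ j') + 24 * 4 ^ j * YY s c l j * (j' + 2)
        + (open Classical in if j = j' ∧ a = a' then 2 * (4 : ℝ) ^ j else 0) := by
  classical
  have hY := YY_nonneg s c hc l j
  -- pointwise bound
  have hpt : ∀ b ∈ BB j, ∀ b' ∈ BB j', ((cp (th α a) (th α a') b b' R).card : ℝ) ≤
      4 * R * (b : ℝ) * (b' : ℝ)
      + (if ¬ (∀ i, (b' / Nat.gcd b b') * a i = (b / Nat.gcd b b') * a' i) ∧
        ∃ w : ℤ, |(w : ℝ) - (((b' / Nat.gcd b b' : ℕ) : ℝ) * th α a - ((b / Nat.gcd b b' : ℕ) : ℝ) * th α a')|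
          ≤ R * ((Nat.gcd b b' : ℕ) * ((b / Nat.gcd b b' : ℕ) : ℝ) * ((b' / Nat.gcd b b' : ℕ) : ℝ))
      then ((Nat.gcd b b' : ℕ) : ℝ) else 0)
      + (if j = j' ∧ a = a' ∧ b = b' then (b : ℝ) else 0) := by
    intro b hb b' hb'
    rw [mem_BB] at hb hb'
    have hp1 : 0 < b := lt_of_lt_of_le (by positivity) hb.1
    have hp2 : 0 < b' := lt_of_lt_of_le (by positivity) hb'.1
    set g := Nat.gcd b b' with hg
    have hg0 : 0 < g := Nat.gcd_pos_of_pos_left _ hp1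
    have hd1 : g ∣ b := Nat.gcd_dvd_left _ _
    have hd2 : g ∣ b' := Nat.gcd_dvd_right _ _
    have e1 : g * (b / g) = b := Nat.mul_div_cancel' hd1
    have e2 : g * (b' / g) = b' := Nat.mul_div_cancel' hd2
    have hu : 0 < b / g := Nat.div_pos (Nat.le_of_dvd hp1 hd1) hg0
    have hu' : 0 < b' / g := Nat.div_pos (Nat.le_of_dvd hp2 hd2) hg0
    have hcop : Nat.Coprime (b / g) (b' / g) := Nat.coprime_div_gcd_div_gcd hg0
    have hb1 := pair_bound (th α a) (th α a') g (b / g) (b' / g) hg0 hu hu' hcop R hR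
      (∀ i, (b' / g) * a i = (b / g) * a' i) (by
        intro hZ
        unfold th
        rw [mul_sum, mul_sum]
        apply sum_congr rfl
        intro i _
        have h1 : ((b' / g : ℕ) : ℝ) * a i = ((b / g : ℕ) : ℝ) * a' i := by exact_mod_cast hZ i
        rw [← mul_assoc, ← mul_assoc, h1])
    rw [e1, e2] at hb1
    refine hb1.trans ?_
    apply add_le_add
    · apply le_of_eq
      congr!
    · split_ifs with h1 h2 h2
      · exact_mod_cast Nat.le_of_dvd hp1 hd1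
      · exfalso
        apply h2
        have hbg : b = g := by rw [← e1, h1.2.1, mul_one]
        have hbg' : b' = g := by rw [← e2, h1.2.2, mul_one]
        have hbb : b = b' := by rw [hbg, hbg']
        refine ⟨?_, ?_, hbb⟩
        · rcases Nat.lt_trichotomy j j' with h | h | h
          · exfalso
            have : 2 ^ (j + 1) ≤ 2 ^ j' := Nat.pow_le_pow_right (by norm_num) h
            omega
          · exact h
          · exfalso
            have : 2 ^ (j' + 1) ≤ 2 ^ j := Nat.pow_le_pow_right (by norm_num) h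
            omega
        · funext i
          have := h1.1 i
          rw [h1.2.1, h1.2.2, one_mul, one_mul] at this
          exact this
      · positivity
      · exact le_rfl
  have hsum : ∑ b ∈ BB j, ∑ b' ∈ BB j', ((cp (th α a) (th α a') b b' R).card : ℝ) ≤
      ∑ b ∈ BB j, ∑ b' ∈ BB j', (4 * R * (b : ℝ) * (b' : ℝ))
      + ∑ b ∈ BB j, ∑ b' ∈ BB j', (if ¬ (∀ i, (b' / Nat.gcd b b') * a i = (b / Nat.gcd b b') * a' i) ∧
        ∃ w : ℤ, |(w : ℝ) - (((b' / Nat.gcd b b' : ℕ) : ℝ) * th α a - ((b / Nat.gcd b b' : ℕ) : ℝ) * th α a')|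
          ≤ R * ((Nat.gcd b b' : ℕ) * ((b / Nat.gcd b b' : ℕ) : ℝ) * ((b' / Nat.gcd b b' : ℕ) : ℝ))
      then ((Nat.gcd b b' : ℕ) : ℝ) else 0)
      + ∑ b ∈ BB j, ∑ b' ∈ BB j', (if j = j' ∧ a = a' ∧ b = b' then (b : ℝ) else 0) := by
    rw [← sum_add_distrib, ← sum_add_distrib]
    apply sum_le_sum
    intro b hb
    rw [← sum_add_distrib, ← sum_add_distrib]
    apply sum_le_sum
    intro b' hb'
    exact hpt b hb b' hb'
  refine hsum.trans ?_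
  -- term 1
  have t1 : ∑ b ∈ BB j, ∑ b' ∈ BB j', (4 * R * (b : ℝ) * (b' : ℝ)) ≤ 16 * R * (4 ^ j * 4 ^ j') := by
    have e1 : ∑ b ∈ BB j, ∑ b' ∈ BB j', (4 * R * (b : ℝ) * (b' : ℝ))
        = 4 * R * ((∑ b ∈ BB j, (b : ℝ)) * (∑ b' ∈ BB j', (b' : ℝ))) := by
      rw [sum_mul_sum, mul_sum]
      apply sum_congr rfl
      intro b _
      rw [mul_sum]
      apply sum_congr rfl
      intro b' _
      ring
    rw [e1]
    have h1 := sum_BB j
    have h2 := sum_BB j'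
    have h3 : (0 : ℝ) ≤ ∑ b' ∈ BB j', (b' : ℝ) := sum_nonneg (fun _ _ => Nat.cast_nonneg _)
    calc 4 * R * ((∑ b ∈ BB j, (b : ℝ)) * (∑ b' ∈ BB j', (b' : ℝ)))
        ≤ 4 * R * ((2 * 4 ^ j) * (2 * 4 ^ j')) := by
          apply mul_le_mul_of_nonneg_left _ (by positivity)
          exact mul_le_mul h1 h2 h3 (by positivity)
      _ = _ := by ring
  -- term 2
  have t2 := gcd_sum α a a' j j' R hR
  have hε0 : 0 ≤ R * (4 * (2 ^ j * 2 ^ j')) := by positivity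
  have h44 : (4 : ℝ) ^ j' = 2 ^ j' * 2 ^ j' := by rw [← mul_pow]; norm_num
  have h44j : (4 : ℝ) ^ j = 2 ^ j * 2 ^ j := by rw [← mul_pow]; norm_num
  have h2jj : (2 : ℝ) ^ j = 2 ^ (j - j') * 2 ^ j' := by rw [← pow_add]; congr 1; omega
  have hε : R * (4 * (2 ^ j * 2 ^ j')) ≤ 8 * 2 ^ (j - j') := by
    have : R * (4 * (2 ^ j * 2 ^ j')) = 4 * 2 ^ (j - j') * (R * 4 ^ j') := by
      rw [h44, h2jj]; ring
    rw [this]
    have h0 : (0 : ℝ) ≤ 4 * 2 ^ (j - j') := by positivity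
    nlinarith
  have t2' : ∑ g ∈ Icc (1 : ℕ) (2 ^ (j' + 1)), (g : ℝ) * (Sg α a a' j j' g (R * (4 * (2 ^ j * 2 ^ j')))).card
      ≤ 128 * R * (4 ^ j * 4 ^ j') + 24 * 4 ^ j * YY s c l j * (j' + 2) := by
    have h1 : ∀ g ∈ Icc (1 : ℕ) (2 ^ (j' + 1)), (g : ℝ) * (Sg α a a' j j' g (R * (4 * (2 ^ j * 2 ^ j')))).card
        ≤ 64 * R * (4 ^ j * 4 ^ j') * (1 / (g : ℝ) ^ 2) + 24 * 4 ^ j * YY s c l j * (1 / (g : ℝ)) := by
      intro g hg
      rw [mem_Icc] at hg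
      have hgR : (0 : ℝ) < g := by exact_mod_cast hg.1
      have h2 := Sg_card hs α c hc hdio a a' l ha2 hal hal' hl j j' g hjj hg.1 _ hε0 hε
      calc (g : ℝ) * (Sg α a a' j j' g (R * (4 * (2 ^ j * 2 ^ j')))).card
          ≤ g * ((2 ^ (j + 1) / g) * (4 * (2 ^ (j' + 1) / g) * (R * (4 * (2 ^ j * 2 ^ j')) / g)
            + 6 * (2 ^ (j' + 1) / g) * (2 ^ (j - j') * YY s c l j))) :=
              mul_le_mul_of_nonneg_left h2 hgR.le
        _ = 64 * R * ((2 ^ j * 2 ^ j) * (2 ^ j' * 2 ^ j')) * (1 / (g : ℝ) ^ 2)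
            + 24 * (2 ^ j * (2 ^ (j - j') * 2 ^ j')) * YY s c l j * (1 / (g : ℝ)) := by
              field_simp
              ring
        _ = _ := by rw [← h2jj, ← h44, ← h44j]
    refine (sum_le_sum h1).trans ?_
    rw [sum_add_distrib, ← mul_sum, ← mul_sum]
    have h2 := sum_inv_sq (2 ^ (j' + 1))
    have h3 := sum_inv (j' + 1)
    push_cast at h3
    apply add_le_add
    · calc 64 * R * (4 ^ j * 4 ^ j') * ∑ g ∈ Icc (1 : ℕ) (2 ^ (j' + 1)), (1 : ℝ) / (g : ℝ) ^ 2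
          ≤ 64 * R * (4 ^ j * 4 ^ j') * 2 := mul_le_mul_of_nonneg_left h2 (by positivity)
        _ = _ := by ring
    · apply mul_le_mul_of_nonneg_left _ (by positivity)
      linarith
  -- term 3
  have t3 : ∑ b ∈ BB j, ∑ b' ∈ BB j', (if j = j' ∧ a = a' ∧ b = b' then (b : ℝ) else 0)
      ≤ if j = j' ∧ a = a' then 2 * (4 : ℝ) ^ j else 0 := by
    split_ifs with h
    · refine le_trans ?_ (sum_BB j)
      apply sum_le_sum
      intro b _
      calc ∑ b' ∈ BB j', (if j = j' ∧ a = a' ∧ b = b' then (b : ℝ) else 0)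
          ≤ ∑ b' ∈ BB j', (if b = b' then (b : ℝ) else 0) := by
            apply sum_le_sum
            intro b' _
            by_cases hbb : b = b'
            · rw [if_pos hbb]
              split_ifs
              · exact le_rfl
              · positivity
            · rw [if_neg hbb, if_neg (fun h => hbb h.2.2)]
        _ ≤ b := by
            rw [sum_ite_eq]
            split_ifs
            · exact le_rfl
            · positivity
    · apply le_of_eq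
      apply sum_eq_zero
      intro b _
      apply sum_eq_zero
      intro b' _
      rw [if_neg (fun h' => h ⟨h'.1, h'.2.1⟩)]
  have t2'' : ∑ b ∈ BB j, ∑ b' ∈ BB j', (if ¬ (∀ i, (b' / Nat.gcd b b') * a i = (b / Nat.gcd b b') * a' i) ∧
        ∃ w : ℤ, |(w : ℝ) - (((b' / Nat.gcd b b' : ℕ) : ℝ) * th α a - ((b / Nat.gcd b b' : ℕ) : ℝ) * th α a')|
          ≤ R * ((Nat.gcd b b' : ℕ) * ((b / Nat.gcd b b' : ℕ) : ℝ) * ((b' / Nat.gcd b b' : ℕ) : ℝ))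
      then ((Nat.gcd b b' : ℕ) : ℝ) else 0) ≤ 128 * R * (4 ^ j * 4 ^ j') + 24 * 4 ^ j * YY s c l j * (j' + 2) := by
    refine le_trans (le_of_eq ?_) (t2.trans t2')
    apply sum_congr rfl
    intro b _
    apply sum_congr rfl
    intro b' _
    congr!
  have t3' : (if j = j' ∧ a = a' then 2 * (4 : ℝ) ^ j else 0)
      = (open Classical in if j = j' ∧ a = a' then 2 * (4 : ℝ) ^ j else 0) := by congr!
  linarith

end Pool.Agent.H951R3
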