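import Mathlib
import Pool.Agent.H951R3.C4

set_option autoImplicit false

namespace Pool.Agent.H951R3

open Finset

/-- the numerators coprime to `b` -/
def XX (b : ℕ) : Finset ℕ := (range b).filter (fun x => Nat.Coprime x b)

theorem mem_XX (b x : ℕ) : x ∈ XX b ↔ x < b ∧ Nat.Coprime x b := by
  unfold XX; rw [mem_filter, mem_range]

theorem card_XX (b : ℕ) (hb : 0 < b) :
    (b : ℝ) ≤ (XX b).card + ∑ d ∈ Icc 2 b, (if d ∣ b then (b : ℝ) / d else 0) := by
  classical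
  have h1 : range b ⊆ XX b ∪ ((Icc 2 b).filter (fun d => d ∣ b)).biUnion (fun d => (range (b / d)).image (fun k => d * k)) := by
    intro x hx
    rw [mem_range] at hx
    rw [mem_union]
    by_cases hc : Nat.Coprime b x
    · left
      rw [mem_XX]
      exact ⟨hx, hc.symm⟩
    · right
      rw [mem_biUnion]
      refine ⟨Nat.gcd b x, ?_, ?_⟩
      · rw [mem_filter, mem_Icc]
        have h0 : 0 < Nat.gcd b x := Nat.gcd_pos_of_pos_left _ hb
        have h2 : Nat.gcd b x ≠ 1 := hc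
        refine ⟨⟨by omega, Nat.gcd_le_left _ hb⟩, Nat.gcd_dvd_left _ _⟩
      · rw [mem_image]
        have h0 : 0 < Nat.gcd b x := Nat.gcd_pos_of_pos_left _ hb
        refine ⟨x / Nat.gcd b x, ?_, Nat.mul_div_cancel' (Nat.gcd_dvd_right _ _)⟩
        rw [mem_range]
        exact Nat.div_lt_div_of_lt_of_dvd (Nat.gcd_dvd_left _ _) hx
  have h2 := card_le_card h1
  rw [card_range] at h2
  have h3 := card_union_le (XX b) (((Icc 2 b).filter (fun d => d ∣ b)).biUnion (fun d => (range (b / d)).image (fun k => d * k)))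
  have h4 : (((Icc 2 b).filter (fun d => d ∣ b)).biUnion (fun d => (range (b / d)).image (fun k => d * k))).card
      ≤ ∑ d ∈ (Icc 2 b).filter (fun d => d ∣ b), b / d := by
    refine card_biUnion_le.trans (sum_le_sum ?_)
    intro d _
    refine card_image_le.trans ?_
    rw [card_range]
  have h5 : b ≤ (XX b).card + ∑ d ∈ (Icc 2 b).filter (fun d => d ∣ b), b / d := by omega
  have h6 : (b : ℝ) ≤ (XX b).card + ((∑ d ∈ (Icc 2 b).filter (fun d => d ∣ b), b / d : ℕ) : ℝ) := by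
    exact_mod_cast h5
  refine h6.trans ?_
  rw [Nat.cast_sum, sum_filter]
  gcongr with d hd
  split_ifs with h
  · exact Nat.cast_div_le
  · exact le_rfl

theorem sum_inv_sq' (G : ℕ) : ∑ d ∈ Icc 2 G, (1 : ℝ) / (d : ℝ) ^ 2 ≤ 25 / 36 := by
  have h : ∀ G : ℕ, 3 ≤ G → ∑ g ∈ Icc 2 G, (1 : ℝ) / (g : ℝ) ^ 2 ≤ 25 / 36 - 1 / G := by
    intro G hG
    induction G, hG using Nat.le_induction with
    | base =>
      have : Icc 2 3 = ({2, 3} : Finset ℕ) := by decide
      rw [this, sum_pair (by norm_num)]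
      norm_num
    | succ n hn ih =>
      rw [sum_Icc_succ_top (by omega)]
      have hnR : (1 : ℝ) ≤ n := by exact_mod_cast (by omega : 1 ≤ n)
      have h1 : (1 : ℝ) / ((n + 1 : ℕ) : ℝ) ^ 2 ≤ 1 / n - 1 / ((n + 1 : ℕ) : ℝ) := by
        push_cast
        rw [div_sub_div _ _ (by positivity) (by positivity), div_le_div_iff₀ (by positivity) (by positivity)]
        nlinarith
      linarith
  rcases Nat.lt_or_ge G 3 with h0 | h0
  · have h1 : ∑ d ∈ Icc 2 G, (1 : ℝ) / (d : ℝ) ^ 2 ≤ ∑ d ∈ Icc (2 : ℕ) 3, (1 : ℝ) / (d : ℝ) ^ 2 := by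
      apply sum_le_sum_of_subset_of_nonneg
      · apply Icc_subset_Icc_right; omega
      · intro i _ _; positivity
    have h2 := h 3 le_rfl
    refine h1.trans (h2.trans ?_)
    norm_num
  · have h1 := h G h0
    have h2 : (0 : ℝ) ≤ 1 / G := by positivity
    linarith

theorem card_dvd_BB (j d : ℕ) (hd : 0 < d) :
    (((BB j).filter (fun b => d ∣ b)).card : ℝ) ≤ 2 ^ j / d + 1 := by
  classical
  have h1 : (BB j).filter (fun b => d ∣ b) ∪ (Ioc 0 (2 ^ j - 1)).filter (fun b => d ∣ b)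
      ⊆ (Ioc 0 (2 ^ (j + 1) - 1)).filter (fun b => d ∣ b) := by
    intro x hx
    rw [mem_union, mem_filter, mem_filter, mem_BB, mem_Ioc] at hx
    rw [mem_filter, mem_Ioc]
    have h2 : 1 ≤ 2 ^ j := Nat.one_le_two_pow
    have h3 : 2 ^ (j + 1) = 2 * 2 ^ j := by ring
    rcases hx with h | h
    · exact ⟨⟨by omega, by omega⟩, h.2⟩
    · exact ⟨⟨by omega, by omega⟩, h.2⟩
  have h2 : Disjoint ((BB j).filter (fun b => d ∣ b)) ((Ioc 0 (2 ^ j - 1)).filter (fun b => d ∣ b)) := by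
    rw [Finset.disjoint_left]
    intro x hx hx'
    rw [mem_filter, mem_BB] at hx
    rw [mem_filter, mem_Ioc] at hx'
    have h2 : 1 ≤ 2 ^ j := Nat.one_le_two_pow
    omega
  have h3 := card_le_card h1
  rw [card_union_of_disjoint h2, Nat.Ioc_filter_dvd_card_eq_div, Nat.Ioc_filter_dvd_card_eq_div] at h3
  have hdR : (0 : ℝ) < d := by exact_mod_cast hd
  have h4 : (((2 ^ (j + 1) - 1) / d : ℕ) : ℝ) ≤ (2 ^ (j + 1) - 1) / d := by
    refine Nat.cast_div_le.trans ?_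
    rw [Nat.cast_sub Nat.one_le_two_pow]
    push_cast
    exact le_rfl
  have h5 : ((2 : ℝ) ^ j - d) / d ≤ (((2 ^ j - 1) / d : ℕ) : ℝ) := by
    rw [div_le_iff₀ hdR]
    have h6 : 2 ^ j - 1 < d * ((2 ^ j - 1) / d + 1) := Nat.lt_mul_div_succ _ hd
    have h7 : 2 ^ j ≤ d * ((2 ^ j - 1) / d + 1) := by omega
    have h8 : (2 : ℝ) ^ j ≤ d * ((((2 ^ j - 1) / d : ℕ) : ℝ) + 1) := by exact_mod_cast h7
    linarith
  have h6 : (((BB j).filter (fun b => d ∣ b)).card : ℝ) + (((2 ^ j - 1) / d : ℕ) : ℝ)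
      ≤ (((2 ^ (j + 1) - 1) / d : ℕ) : ℝ) := by exact_mod_cast h3
  have h7 : ((2 : ℝ) ^ (j + 1) - 1) / d - ((2 : ℝ) ^ j - d) / d ≤ 2 ^ j / d + 1 := by
    have : ((2 : ℝ) ^ (j + 1) - 1) / d - ((2 : ℝ) ^ j - d) / d = 2 ^ j / d + 1 - 1 / d := by
      field_simp
      ring
    rw [this]
    have : (0 : ℝ) ≤ 1 / d := by positivity
    linarith
  linarith

theorem sum_BB_lower (j : ℕ) : (3 / 2 : ℝ) * 4 ^ j - 2 ^ j ≤ ∑ b ∈ BB j, (b : ℝ) := by
  have h1 : ∀ n m : ℕ, ∑ b ∈ Ico n (n + m), (b : ℝ) = n * m + m * (m - 1) / 2 := by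
    intro n m
    induction m with
    | zero => simp
    | succ m ih =>
      rw [← add_assoc, sum_Ico_succ_top (by omega), ih]
      push_cast
      ring
  have h2 : 2 ^ (j + 1) = 2 ^ j + 2 ^ j := by ring
  unfold BB
  rw [h2, h1]
  have h44j : (4 : ℝ) ^ j = 2 ^ j * 2 ^ j := by rw [← mul_pow]; norm_num
  rw [h44j]
  push_cast
  have : (1 : ℝ) ≤ 2 ^ j := one_le_pow₀ (by norm_num)
  nlinarith

theorem pow_ge (j : ℕ) (hj : 9 ≤ j) : (18 : ℝ) * (2 * j + 5) ≤ 2 ^ j := by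
  induction j, hj using Nat.le_induction with
  | base => norm_num
  | succ n hn ih =>
    have hnR : (9 : ℝ) ≤ n := by exact_mod_cast hn
    rw [pow_succ]
    push_cast
    nlinarith

theorem tot_sum (j : ℕ) (hj : 9 ≤ j) : (1 / 18 : ℝ) * 4 ^ j ≤ ∑ b ∈ BB j, ((XX b).card : ℝ) := by
  have h1 : ∑ b ∈ BB j, (b : ℝ) ≤ ∑ b ∈ BB j, ((XX b).card : ℝ)
      + ∑ b ∈ BB j, ∑ d ∈ Icc 2 (2 ^ (j + 1)), (if d ∣ b then (b : ℝ) / d else 0) := by
    rw [← sum_add_distrib]
    apply sum_le_sum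
    intro b hb
    rw [mem_BB] at hb
    have hb0 : 0 < b := lt_of_lt_of_le (by positivity) hb.1
    refine (card_XX b hb0).trans ?_
    apply add_le_add le_rfl
    apply sum_le_sum_of_subset_of_nonneg
    · exact Icc_subset_Icc_right hb.2.le
    · intro d _ _
      split_ifs
      · positivity
      · exact le_rfl
  have h2 : ∑ b ∈ BB j, ∑ d ∈ Icc 2 (2 ^ (j + 1)), (if d ∣ b then (b : ℝ) / d else 0)
      ≤ 2 * 4 ^ j * (25 / 36) + 2 * 2 ^ j * (j + 2) := by
    rw [sum_comm]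
    have h3 : ∀ d ∈ Icc 2 (2 ^ (j + 1)), ∑ b ∈ BB j, (if d ∣ b then (b : ℝ) / d else 0)
        ≤ 2 * 4 ^ j * (1 / (d : ℝ) ^ 2) + 2 * 2 ^ j * (1 / (d : ℝ)) := by
      intro d hd
      rw [mem_Icc] at hd
      have hdR : (0 : ℝ) < d := by exact_mod_cast (by omega : 0 < d)
      rw [← sum_filter]
      calc ∑ b ∈ (BB j).filter (fun b => d ∣ b), (b : ℝ) / d
          ≤ ∑ _b ∈ (BB j).filter (fun b => d ∣ b), (2 : ℝ) ^ (j + 1) / d := by
            apply sum_le_sum
            intro b hb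
            rw [mem_filter, mem_BB] at hb
            apply div_le_div_of_nonneg_right _ hdR.le
            exact_mod_cast hb.1.2.le
        _ = ((BB j).filter (fun b => d ∣ b)).card * ((2 : ℝ) ^ (j + 1) / d) := by
            rw [sum_const, nsmul_eq_mul]
        _ ≤ (2 ^ j / d + 1) * ((2 : ℝ) ^ (j + 1) / d) :=
            mul_le_mul_of_nonneg_right (card_dvd_BB j d (by omega)) (by positivity)
        _ = 2 * 4 ^ j * (1 / (d : ℝ) ^ 2) + 2 * 2 ^ j * (1 / (d : ℝ)) := by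
            have h44j : (4 : ℝ) ^ j = 2 ^ j * 2 ^ j := by rw [← mul_pow]; norm_num
            rw [h44j]
            field_simp
            ring
    refine (sum_le_sum h3).trans ?_
    rw [sum_add_distrib, ← mul_sum, ← mul_sum]
    have h4 := sum_inv_sq' (2 ^ (j + 1))
    have h5 : ∑ d ∈ Icc (2 : ℕ) (2 ^ (j + 1)), (1 : ℝ) / (d : ℝ) ≤ j + 2 := by
      have h6 := sum_inv (j + 1)
      push_cast at h6
      refine le_trans ?_ (h6.trans (by linarith))
      apply sum_le_sum_of_subset_of_nonneg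
      · exact Icc_subset_Icc_left (by norm_num)
      · intro d _ _; positivity
    apply add_le_add
    · exact mul_le_mul_of_nonneg_left h4 (by positivity)
    · exact mul_le_mul_of_nonneg_left h5 (by positivity)
  have h3 := sum_BB_lower j
  have h4 := pow_ge j hj
  have h44j : (4 : ℝ) ^ j = 2 ^ j * 2 ^ j := by rw [← mul_pow]; norm_num
  have h5 : (0 : ℝ) < 2 ^ j := by positivity
  have h6 : 18 * (2 * (j : ℝ) + 5) * 2 ^ j ≤ 4 ^ j := by
    rw [h44j]
    exact mul_le_mul_of_nonneg_right h4 h5.le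
  linarith

end Pool.Agent.H951R3
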