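import Mathlib
import Pool.Agent.H951R3.C5

set_option autoImplicit false

namespace Pool.Agent.H951R3

open Finset MeasureTheory

/-- the box of multipliers -/
def AA (s l : ℕ) : Finset (Fin s → ℕ) := Fintype.piFinset (fun _ => Icc 2 (2 ^ l))

theorem mem_AA (s l : ℕ) (a : Fin s → ℕ) : a ∈ AA s l ↔ ∀ i, 2 ≤ a i ∧ a i ≤ 2 ^ l := by
  unfold AA
  simp only [Fintype.mem_piFinset, mem_Icc]

theorem card_AA (s l : ℕ) : ((AA s l).card : ℝ) ≤ 2 ^ (s * l) := by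
  unfold AA
  rw [Fintype.card_piFinset]
  simp only [Nat.card_Icc, prod_const, card_univ, Fintype.card_fin]
  have h1 : 2 ^ l + 1 - 2 ≤ 2 ^ l := Nat.sub_le_of_le_add (by omega)
  have h2 : (2 ^ l + 1 - 2) ^ s ≤ 2 ^ (s * l) := by
    calc (2 ^ l + 1 - 2) ^ s ≤ (2 ^ l) ^ s := Nat.pow_le_pow_left h1 s
      _ = 2 ^ (s * l) := by rw [← pow_mul, mul_comm]
  exact_mod_cast h2

/-- the product of the entries -/
noncomputable def hh {s : ℕ} (a : Fin s → ℕ) : ℝ := ∏ i, (a i : ℝ)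

theorem hh_one {s : ℕ} (a : Fin s → ℕ) (ha : ∀ i, 2 ≤ a i) : 1 ≤ hh a := by
  unfold hh
  have : ∏ _i : Fin s, (1 : ℝ) ≤ ∏ i, (a i : ℝ) :=
    Finset.prod_le_prod (fun _ _ => by norm_num) (fun i _ => by
      have := ha i
      exact_mod_cast (by omega : 1 ≤ a i))
  simpa using this

/-- the radius -/
noncomputable def rr {s : ℕ} (j : ℕ) (a : Fin s → ℕ) : ℝ :=
  1 / (hh a * 4 ^ (j + 1) * (2 * j + 2) ^ (s + 1))

theorem rr_nonneg {s : ℕ} (j : ℕ) (a : Fin s → ℕ) : 0 ≤ rr j a := by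
  unfold rr hh
  positivity

theorem rr_le {s : ℕ} (j : ℕ) (a : Fin s → ℕ) (ha : ∀ i, 2 ≤ a i) : rr j a ≤ 1 / 4 ^ (j + 1) := by
  unfold rr
  have h1 := hh_one a ha
  have h2 : (1 : ℝ) ≤ (2 * j + 2) ^ (s + 1) := by
    apply one_le_pow₀
    have : (0 : ℝ) ≤ j := Nat.cast_nonneg j
    linarith
  apply one_div_le_one_div_of_le (by positivity)
  calc (4 : ℝ) ^ (j + 1) = 1 * 4 ^ (j + 1) * 1 := by ring
    _ ≤ hh a * 4 ^ (j + 1) * (2 * j + 2) ^ (s + 1) := by gcongr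

theorem sym_sum {ι : Type} (P : Finset ι) (f : ι → ℕ) (F : ι → ι → ℝ) (hF0 : ∀ p q, 0 ≤ F p q)
    (hFs : ∀ p q, F p q = F q p) :
    ∑ p ∈ P, ∑ q ∈ P, F p q ≤ 2 * ∑ p ∈ P, ∑ q ∈ P, (if f q ≤ f p then F p q else 0) := by
  have h1 : ∑ p ∈ P, ∑ q ∈ P, F p q ≤ ∑ p ∈ P, ∑ q ∈ P, (if f q ≤ f p then F p q else 0)
      + ∑ p ∈ P, ∑ q ∈ P, (if f p ≤ f q then F p q else 0) := by
    rw [← sum_add_distrib]
    apply sum_le_sum
    intro p _
    rw [← sum_add_distrib]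
    apply sum_le_sum
    intro q _
    have h0 := hF0 p q
    rcases le_total (f p) (f q) with h | h
    · rw [if_pos h]
      split_ifs <;> linarith
    · rw [if_pos h]
      split_ifs <;> linarith
  have h2 : ∑ p ∈ P, ∑ q ∈ P, (if f p ≤ f q then F p q else 0)
      = ∑ p ∈ P, ∑ q ∈ P, (if f q ≤ f p then F p q else 0) := by
    rw [sum_comm]
    apply sum_congr rfl
    intro p _
    apply sum_congr rfl
    intro q _
    rw [hFs q p]
  rw [h2] at h1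
  linarith

/-- the fractions of one block -/
def VV (j : ℕ) : Finset (Σ _ : ℕ, ℕ) := (BB j).sigma XX

theorem inner_sum (θ θ' R M : ℝ) (j j' : ℕ) :
    ∑ v ∈ VV j, ∑ v' ∈ VV j', (if ‖ctr θ v.1 v.2 - ctr θ' v'.1 v'.2‖ ≤ R then M else 0)
      = M * ∑ b ∈ BB j, ∑ b' ∈ BB j', ((cp θ θ' b b' R).card : ℝ) := by
  unfold VV
  rw [sum_sigma, mul_sum]
  apply sum_congr rfl
  intro b _
  rw [mul_sum]
  simp only [sum_sigma]
  rw [sum_comm]
  apply sum_congr rfl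
  intro b' _
  have h1 : (cp θ θ' b b' R) = ((XX b) ×ˢ (XX b')).filter
      (fun x => ‖ctr θ b x.1 - ctr θ' b' x.2‖ ≤ R) := by
    ext x
    rw [mem_cp, mem_filter, mem_product, mem_XX, mem_XX]
  rw [h1, ← sum_product' (f := fun x x' => if ‖ctr θ b x - ctr θ' b' x'‖ ≤ R then M else 0), ← sum_filter,
    sum_const, nsmul_eq_mul, mul_comm]

/-- the mass -/
noncomputable def Wm {s : ℕ} (p : Σ _ : ℕ, Fin s → ℕ) : ℝ := rr p.1 p.2 * 4 ^ p.1

theorem Wm_nonneg {s : ℕ} (p : Σ _ : ℕ, Fin s → ℕ) : 0 ≤ Wm p := by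
  unfold Wm
  have := rr_nonneg p.1 p.2
  positivity

/-- the pair count -/
noncomputable def NN {s : ℕ} (α : Fin s → ℝ) (p p' : Σ _ : ℕ, Fin s → ℕ) : ℝ :=
  ∑ b ∈ BB p.1, ∑ b' ∈ BB p'.1, ((cp (th α p.2) (th α p'.2) b b' (rr p.1 p.2 + rr p'.1 p'.2)).card : ℝ)

theorem NN_nonneg {s : ℕ} (α : Fin s → ℝ) (p p' : Σ _ : ℕ, Fin s → ℕ) : 0 ≤ NN α p p' := by
  unfold NN
  exact sum_nonneg (fun _ _ => sum_nonneg (fun _ _ => Nat.cast_nonneg _))

theorem cp_symm (θ θ' : ℝ) (b b' : ℕ) (R : ℝ) : (cp θ θ' b b' R).card = (cp θ' θ b' b R).card := by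
  apply card_bij (fun x _ => (x.2, x.1))
  · intro x hx
    rw [mem_cp] at hx ⊢
    exact ⟨⟨hx.1.2, hx.1.1⟩, by rw [norm_sub_rev]; exact hx.2⟩
  · intro x _ y _ hxy
    simp only [Prod.mk.injEq] at hxy
    exact Prod.ext hxy.2 hxy.1
  · intro x hx
    refine ⟨(x.2, x.1), ?_, rfl⟩
    rw [mem_cp] at hx ⊢
    exact ⟨⟨hx.1.2, hx.1.1⟩, by rw [norm_sub_rev]; exact hx.2⟩

theorem NN_symm {s : ℕ} (α : Fin s → ℝ) (p p' : Σ _ : ℕ, Fin s → ℕ) : NN α p p' = NN α p' p := by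
  unfold NN
  rw [sum_comm]
  apply sum_congr rfl
  intro b _
  apply sum_congr rfl
  intro b' _
  rw [cp_symm, add_comm]

theorem pair_term {s : ℕ} (hs : 1 ≤ s) (α : Fin s → ℝ) (c : ℝ) (hc : 0 < c) (hdio : Dio α c)
    (K : ℕ) (hK : 1 ≤ K) (p p' : Σ _ : ℕ, Fin s → ℕ) (hp : p.2 ∈ AA s (p.1 / K)) (hp' : p'.2 ∈ AA s (p'.1 / K))
    (hpK : K ≤ p.1) (hpp : p'.1 ≤ p.1) :
    2 * min (rr p.1 p.2) (rr p'.1 p'.2) * NN α p p' ≤
      576 * (Wm p * Wm p') + 48 * (Wm p * YY s c (p.1 / K) p.1) * (p'.1 + 2)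
        + (open Classical in if p.1 = p'.1 ∧ p.2 = p'.2 then 4 * Wm p else 0) := by
  classical
  rw [mem_AA] at hp hp'
  set r := rr p.1 p.2 with hr
  set r' := rr p'.1 p'.2 with hr'
  have hr0 : 0 ≤ r := rr_nonneg _ _
  have hr0' : 0 ≤ r' := rr_nonneg _ _
  have hY := YY_nonneg s c hc (p.1 / K) p.1
  have hl : 1 ≤ p.1 / K := by
    rw [Nat.one_le_div_iff (by omega)]
    exact hpK
  have hll : p'.1 / K ≤ p.1 / K := Nat.div_le_div_right hpp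
  have hrle : r ≤ 1 / 4 ^ (p'.1 + 1) := by
    refine (rr_le _ _ (fun i => (hp i).1)).trans ?_
    apply one_div_le_one_div_of_le (by positivity)
    exact pow_le_pow_right₀ (by norm_num) (by omega)
  have hrle' : r' ≤ 1 / 4 ^ (p'.1 + 1) := rr_le _ _ (fun i => (hp' i).1)
  have hR2 : (r + r') * 4 ^ p'.1 ≤ 2 := by
    calc (r + r') * 4 ^ p'.1 ≤ (1 / 4 ^ (p'.1 + 1) + 1 / 4 ^ (p'.1 + 1)) * 4 ^ p'.1 := by gcongr
      _ = 1 / 2 := by rw [pow_succ]; field_simp; norm_num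
      _ ≤ 2 := by norm_num
  have hb := block_bound hs α c hc hdio p.2 p'.2 (p.1 / K) (fun i => (hp i).1) (fun i => (hp i).2)
    (fun i => (hp' i).2.trans (Nat.pow_le_pow_right (by norm_num) hll)) hl p.1 p'.1 hpp (r + r')
    (by positivity) hR2
  have hN : NN α p p' ≤ 144 * (r + r') * (4 ^ p.1 * 4 ^ p'.1) + 24 * 4 ^ p.1 * YY s c (p.1 / K) p.1 * (p'.1 + 2)
        + (if p.1 = p'.1 ∧ p.2 = p'.2 then 2 * (4 : ℝ) ^ p.1 else 0) := by
    unfold NN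
    refine hb.trans (le_of_eq ?_)
    congr!
  set m := min r r' with hm
  have hm0 : 0 ≤ m := le_min hr0 hr0'
  have hmr : m ≤ r := min_le_left _ _
  have hmr' : m ≤ r' := min_le_right _ _
  have hmR : m * (r + r') ≤ 2 * (r * r') := by
    rcases le_total r r' with h | h
    · rw [hm, min_eq_left h]; nlinarith
    · rw [hm, min_eq_right h]; nlinarith
  have hi : (0 : ℝ) ≤ if p.1 = p'.1 ∧ p.2 = p'.2 then 2 * (4 : ℝ) ^ p.1 else 0 := by
    split_ifs <;> positivity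
  have e3 : (if p.1 = p'.1 ∧ p.2 = p'.2 then 4 * Wm p else 0)
      = 2 * r * (if p.1 = p'.1 ∧ p.2 = p'.2 then 2 * (4 : ℝ) ^ p.1 else 0) := by
    split_ifs
    · unfold Wm; ring
    · ring
  calc 2 * m * NN α p p' ≤ 2 * m * (144 * (r + r') * (4 ^ p.1 * 4 ^ p'.1) + 24 * 4 ^ p.1 * YY s c (p.1 / K) p.1 * (p'.1 + 2)
        + (if p.1 = p'.1 ∧ p.2 = p'.2 then 2 * (4 : ℝ) ^ p.1 else 0)) :=
        mul_le_mul_of_nonneg_left hN (by positivity)
    _ = 288 * (4 ^ p.1 * 4 ^ p'.1) * (m * (r + r')) + m * (48 * 4 ^ p.1 * YY s c (p.1 / K) p.1 * (p'.1 + 2))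
        + 2 * m * (if p.1 = p'.1 ∧ p.2 = p'.2 then 2 * (4 : ℝ) ^ p.1 else 0) := by ring
    _ ≤ 288 * (4 ^ p.1 * 4 ^ p'.1) * (2 * (r * r')) + r * (48 * 4 ^ p.1 * YY s c (p.1 / K) p.1 * (p'.1 + 2))
        + 2 * r * (if p.1 = p'.1 ∧ p.2 = p'.2 then 2 * (4 : ℝ) ^ p.1 else 0) := by gcongr
    _ = _ := by
        rw [← e3]
        unfold Wm
        ring

/-- the index set -/
def PP (s K J0 J1 : ℕ) : Finset (Σ _ : ℕ, Fin s → ℕ) := (Icc J0 J1).sigma (fun j => AA s (j / K))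

theorem mem_PP (s K J0 J1 : ℕ) (p : Σ _ : ℕ, Fin s → ℕ) :
    p ∈ PP s K J0 J1 ↔ (J0 ≤ p.1 ∧ p.1 ≤ J1) ∧ p.2 ∈ AA s (p.1 / K) := by
  unfold PP
  rw [mem_sigma, mem_Icc]

theorem low_sum (s K J0 J1 j : ℕ) :
    ∑ p' ∈ PP s K J0 J1, (if p'.1 ≤ j then ((p'.1 : ℝ) + 2) else 0)
      ≤ (j + 1) * (j + 2) * 2 ^ (s * (j / K)) := by
  unfold PP
  rw [sum_sigma]
  calc ∑ j' ∈ Icc J0 J1, ∑ _a ∈ AA s (j' / K), (if j' ≤ j then ((j' : ℝ) + 2) else 0)
      = ∑ j' ∈ Icc J0 J1, (if j' ≤ j then ((AA s (j' / K)).card : ℝ) * ((j' : ℝ) + 2) else 0) := by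
        apply sum_congr rfl
        intro j' _
        rw [sum_const, nsmul_eq_mul]
        split_ifs <;> simp
    _ = ∑ j' ∈ (Icc J0 J1).filter (fun j' => j' ≤ j), ((AA s (j' / K)).card : ℝ) * ((j' : ℝ) + 2) := by
        rw [sum_filter]
    _ ≤ ∑ j' ∈ range (j + 1), ((AA s (j' / K)).card : ℝ) * ((j' : ℝ) + 2) := by
        apply sum_le_sum_of_subset_of_nonneg
        · intro x hx
          rw [mem_filter] at hx
          rw [mem_range]
          omega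
        · intro x _ _
          positivity
    _ ≤ ∑ _j' ∈ range (j + 1), (2 : ℝ) ^ (s * (j / K)) * (j + 2) := by
        apply sum_le_sum
        intro x hx
        rw [mem_range] at hx
        have h1 : ((AA s (x / K)).card : ℝ) ≤ 2 ^ (s * (j / K)) := by
          refine (card_AA s (x / K)).trans ?_
          apply pow_le_pow_right₀ (by norm_num)
          exact Nat.mul_le_mul_left _ (Nat.div_le_div_right (by omega))
        have h2 : (x : ℝ) ≤ j := by exact_mod_cast (by omega : x ≤ j)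
        gcongr
    _ = _ := by
        rw [sum_const, card_range, nsmul_eq_mul]
        push_cast
        ring

end Pool.Agent.H951R3
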