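import Mathlib
import Pool.Agent.H951R3.C6

set_option autoImplicit false

namespace Pool.Agent.H951R3

open Finset MeasureTheory

theorem F_bound {s : ℕ} (hs : 1 ≤ s) (α : Fin s → ℝ) (c : ℝ) (hc : 0 < c) (hdio : Dio α c)
    (K : ℕ) (hK : 1 ≤ K) (CZ : ℝ)
    (hCZ : ∀ j : ℕ, YY s c (j / K) j * (((j : ℝ) + 1) * (j + 2) * 2 ^ (s * (j / K))) ≤ CZ)
    (J0 J1 : ℕ) (hKJ : K ≤ J0) :
    ∑ p ∈ PP s K J0 J1, ∑ p' ∈ PP s K J0 J1, 2 * min (rr p.1 p.2) (rr p'.1 p'.2) * NN α p p'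
      ≤ 1152 * (∑ p ∈ PP s K J0 J1, Wm p) ^ 2 + (96 * CZ + 8) * ∑ p ∈ PP s K J0 J1, Wm p := by
  classical
  have h1 := sym_sum (PP s K J0 J1) (fun p => p.1)
    (fun p p' => 2 * min (rr p.1 p.2) (rr p'.1 p'.2) * NN α p p')
    (fun p p' => by
      have h2 : 0 ≤ min (rr p.1 p.2) (rr p'.1 p'.2) := le_min (rr_nonneg _ _) (rr_nonneg _ _)
      have h3 := NN_nonneg α p p'
      positivity)
    (fun p p' => by rw [min_comm, NN_symm])
  refine h1.trans ?_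
  set S := ∑ p ∈ PP s K J0 J1, Wm p with hS
  have h2 : ∀ p ∈ PP s K J0 J1, ∑ p' ∈ PP s K J0 J1,
      (if p'.1 ≤ p.1 then 2 * min (rr p.1 p.2) (rr p'.1 p'.2) * NN α p p' else 0)
      ≤ 576 * (Wm p * S) + 48 * Wm p * CZ + 4 * Wm p := by
    intro p hp
    have hp0 := (mem_PP s K J0 J1 p).1 hp
    have hW := Wm_nonneg p
    have hY := YY_nonneg s c hc (p.1 / K) p.1
    have h3 : ∀ p' ∈ PP s K J0 J1,
        (if p'.1 ≤ p.1 then 2 * min (rr p.1 p.2) (rr p'.1 p'.2) * NN α p p' else 0)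
        ≤ 576 * (Wm p * Wm p') + 48 * (Wm p * YY s c (p.1 / K) p.1) * (if p'.1 ≤ p.1 then ((p'.1 : ℝ) + 2) else 0)
          + (if p = p' then 4 * Wm p else 0) := by
      intro p' hp'
      have hp0' := (mem_PP s K J0 J1 p').1 hp'
      have hW' := Wm_nonneg p'
      have hi : (0 : ℝ) ≤ if p = p' then 4 * Wm p else 0 := by split_ifs <;> positivity
      split_ifs with h h' h'
      · have h5 := pair_term hs α c hc hdio K hK p p' hp0.2 hp0'.2 (hKJ.trans hp0.1.1) h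
        refine h5.trans ?_
        have h6 : (if p.1 = p'.1 ∧ p.2 = p'.2 then 4 * Wm p else 0) ≤ 4 * Wm p := by
          split_ifs
          · exact le_rfl
          · positivity
        have h6' : (open Classical in if p.1 = p'.1 ∧ p.2 = p'.2 then 4 * Wm p else 0) ≤ 4 * Wm p := by
          refine le_trans (le_of_eq ?_) h6
          congr!
        linarith
      · have h5 := pair_term hs α c hc hdio K hK p p' hp0.2 hp0'.2 (hKJ.trans hp0.1.1) h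
        refine h5.trans ?_
        have h7 : ¬ (p.1 = p'.1 ∧ p.2 = p'.2) := by
          intro h8
          apply h'
          cases p
          cases p'
          simp only at h8
          rw [h8.1, h8.2]
        rw [if_neg h7]
      · positivity
      · positivity
    refine (sum_le_sum h3).trans ?_
    rw [sum_add_distrib, sum_add_distrib, ← mul_sum, ← mul_sum, ← mul_sum, sum_ite_eq, if_pos hp]
    have h4 := low_sum s K J0 J1 p.1
    have h5 := hCZ p.1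
    have h6 : 48 * (Wm p * YY s c (p.1 / K) p.1) * ∑ p' ∈ PP s K J0 J1, (if p'.1 ≤ p.1 then ((p'.1 : ℝ) + 2) else 0)
        ≤ 48 * Wm p * CZ := by
      calc 48 * (Wm p * YY s c (p.1 / K) p.1) * ∑ p' ∈ PP s K J0 J1, (if p'.1 ≤ p.1 then ((p'.1 : ℝ) + 2) else 0)
          ≤ 48 * (Wm p * YY s c (p.1 / K) p.1) * (((p.1 : ℝ) + 1) * (p.1 + 2) * 2 ^ (s * (p.1 / K))) :=
            mul_le_mul_of_nonneg_left h4 (by positivity)
        _ = 48 * Wm p * (YY s c (p.1 / K) p.1 * (((p.1 : ℝ) + 1) * (p.1 + 2) * 2 ^ (s * (p.1 / K)))) := by ring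
        _ ≤ 48 * Wm p * CZ := mul_le_mul_of_nonneg_left h5 (by positivity)
    linarith
  have h3 := sum_le_sum h2
  have h4 : ∑ p ∈ PP s K J0 J1, (576 * (Wm p * S) + 48 * Wm p * CZ + 4 * Wm p) = 576 * S ^ 2 + (48 * CZ + 4) * S := by
    rw [sum_add_distrib, sum_add_distrib, ← mul_sum, ← sum_mul, ← sum_mul, ← mul_sum, ← mul_sum, ← hS]
    ring
  rw [h4] at h3
  linarith

/-- the union of the balls -/
noncomputable def UU {s : ℕ} (α : Fin s → ℝ) (K J0 J1 : ℕ) : Set UnitAddCircle :=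
  ⋃ q ∈ (PP s K J0 J1).sigma (fun p => VV p.1),
    Metric.closedBall (ctr (th α q.1.2) q.2.1 q.2.2) (rr q.1.1 q.1.2)

theorem second_moment {s : ℕ} (hs : 1 ≤ s) (α : Fin s → ℝ) (c : ℝ) (hc : 0 < c) (hdio : Dio α c)
    (K : ℕ) (hK : 1 ≤ K) (CZ : ℝ)
    (hCZ : ∀ j : ℕ, YY s c (j / K) j * (((j : ℝ) + 1) * (j + 2) * 2 ^ (s * (j / K))) ≤ CZ)
    (J0 J1 : ℕ) (hKJ : K ≤ J0) (h9 : 9 ≤ J0) :
    ((1 / 9) * ∑ p ∈ PP s K J0 J1, Wm p) ^ 2 ≤ volume.real (UU α K J0 J1)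
      * (1152 * (∑ p ∈ PP s K J0 J1, Wm p) ^ 2 + (96 * CZ + 8) * ∑ p ∈ PP s K J0 J1, Wm p) := by
  classical
  have hpz := Pool.Agent.Helper74.KV.pz ((PP s K J0 J1).sigma (fun p => VV p.1))
    (fun q => ctr (th α q.1.2) q.2.1 q.2.2) (fun q => rr q.1.1 q.1.2)
    (fun q _ => rr_nonneg _ _) (fun q hq => by
      rw [mem_sigma, mem_PP, mem_AA] at hq
      refine (rr_le _ _ (fun i => (hq.1.2 i).1)).trans ?_
      apply one_div_le_one_div_of_le (by norm_num)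
      calc (2 : ℝ) ≤ 4 ^ 1 := by norm_num
        _ ≤ 4 ^ (q.1.1 + 1) := pow_le_pow_right₀ (by norm_num) (by omega))
  have hF := F_bound hs α c hc hdio K hK CZ hCZ J0 J1 hKJ
  have h1 : (1 / 9) * ∑ p ∈ PP s K J0 J1, Wm p ≤
      ∑ q ∈ (PP s K J0 J1).sigma (fun p => VV p.1), 2 * rr q.1.1 q.1.2 := by
    rw [sum_sigma, mul_sum]
    apply sum_le_sum
    intro p hp
    rw [mem_PP] at hp
    simp only
    rw [sum_const, nsmul_eq_mul]
    have h2 := tot_sum p.1 (h9.trans hp.1.1)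
    have h3 : ((VV p.1).card : ℝ) = ∑ b ∈ BB p.1, ((XX b).card : ℝ) := by
      unfold VV
      rw [card_sigma]
      push_cast
      rfl
    rw [h3]
    unfold Wm
    have h4 := rr_nonneg p.1 p.2
    calc 1 / 9 * (rr p.1 p.2 * 4 ^ p.1) = (1 / 18 * 4 ^ p.1) * (2 * rr p.1 p.2) := by ring
      _ ≤ (∑ b ∈ BB p.1, ((XX b).card : ℝ)) * (2 * rr p.1 p.2) :=
        mul_le_mul_of_nonneg_right h2 (by positivity)
  have h2 : ∑ i ∈ (PP s K J0 J1).sigma (fun p => VV p.1), ∑ j ∈ (PP s K J0 J1).sigma (fun p => VV p.1),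
      (if ‖ctr (th α i.1.2) i.2.1 i.2.2 - ctr (th α j.1.2) j.2.1 j.2.2‖ ≤ rr i.1.1 i.1.2 + rr j.1.1 j.1.2
        then 2 * min (rr i.1.1 i.1.2) (rr j.1.1 j.1.2) else 0)
      = ∑ p ∈ PP s K J0 J1, ∑ p' ∈ PP s K J0 J1, 2 * min (rr p.1 p.2) (rr p'.1 p'.2) * NN α p p' := by
    rw [sum_sigma]
    apply sum_congr rfl
    intro p _
    simp only [sum_sigma]
    rw [sum_comm]
    apply sum_congr rfl
    intro p' _
    exact inner_sum (th α p.2) (th α p'.2) (rr p.1 p.2 + rr p'.1 p'.2)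
      (2 * min (rr p.1 p.2) (rr p'.1 p'.2)) p.1 p'.1
  rw [h2] at hpz
  have h0 : 0 ≤ (1 / 9) * ∑ p ∈ PP s K J0 J1, Wm p := by
    have := sum_nonneg (s := PP s K J0 J1) (fun p _ => Wm_nonneg p)
    positivity
  calc ((1 / 9) * ∑ p ∈ PP s K J0 J1, Wm p) ^ 2
      ≤ (∑ q ∈ (PP s K J0 J1).sigma (fun p => VV p.1), 2 * rr q.1.1 q.1.2) ^ 2 :=
        pow_le_pow_left₀ h0 h1 2
    _ ≤ _ := hpz
    _ ≤ _ := mul_le_mul_of_nonneg_left hF measureReal_nonneg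

end Pool.Agent.H951R3
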