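import Mathlib
import Pool.Agent.H951R3.C7

set_option autoImplicit false

namespace Pool.Agent.H951R3

open Finset MeasureTheory Filter Topology

theorem sum_inv_lower (l : ℕ) : (l : ℝ) / 2 ≤ ∑ m ∈ Icc (2 : ℕ) (2 ^ l), (1 : ℝ) / (m : ℝ) := by
  induction l with
  | zero => norm_num
  | succ n ih =>
    rcases Nat.eq_zero_or_pos n with h0 | h0
    · subst h0; norm_num
    have hn2 : 2 ≤ 2 ^ n := by
      calc 2 = 2 ^ 1 := by norm_num
        _ ≤ 2 ^ n := Nat.pow_le_pow_right (by norm_num) h0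
    have h1 : Icc (2 : ℕ) (2 ^ (n + 1)) = Icc (2 : ℕ) (2 ^ n) ∪ Ioc (2 ^ n) (2 ^ (n + 1)) := by
      ext x
      simp only [mem_union, mem_Icc, mem_Ioc]
      have : 2 ^ (n + 1) = 2 * 2 ^ n := by ring
      omega
    have h2 : Disjoint (Icc (2 : ℕ) (2 ^ n)) (Ioc (2 ^ n) (2 ^ (n + 1))) := by
      rw [Finset.disjoint_left]
      intro x hx hx'
      simp only [mem_Icc, mem_Ioc] at hx hx'
      omega
    rw [h1, sum_union h2]
    have h3 : 1 / 2 ≤ ∑ g ∈ Ioc ((2 : ℕ) ^ n) (2 ^ (n + 1)), (1 : ℝ) / (g : ℝ) := by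
      calc (1 : ℝ) / 2 = ∑ _g ∈ Ioc ((2 : ℕ) ^ n) (2 ^ (n + 1)), (1 : ℝ) / 2 ^ (n + 1) := by
            rw [sum_const, Nat.card_Ioc, nsmul_eq_mul]
            have : 2 ^ (n + 1) - 2 ^ n = 2 ^ n := by rw [pow_succ]; omega
            rw [this]
            push_cast
            rw [pow_succ]
            field_simp
        _ ≤ ∑ g ∈ Ioc ((2 : ℕ) ^ n) (2 ^ (n + 1)), (1 : ℝ) / (g : ℝ) := by
            apply sum_le_sum
            intro g hg
            rw [mem_Ioc] at hg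
            have hg0 : 0 < g := by omega
            apply one_div_le_one_div_of_le (by exact_mod_cast hg0)
            exact_mod_cast hg.2
    push_cast
    linarith

theorem sum_AA_inv (s l : ℕ) : ((l : ℝ) / 2) ^ s ≤ ∑ a ∈ AA s l, 1 / hh a := by
  have h1 : ∏ _i : Fin s, ∑ m ∈ Icc (2 : ℕ) (2 ^ l), (1 : ℝ) / (m : ℝ) = ∑ a ∈ AA s l, 1 / hh a := by
    rw [Finset.prod_univ_sum]
    unfold AA hh
    apply sum_congr rfl
    intro a _
    rw [prod_div_distrib, prod_const_one]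
  rw [← h1, prod_const, card_univ, Fintype.card_fin]
  exact pow_le_pow_left₀ (by positivity) (sum_inv_lower l) s

theorem mass_lower (s K J0 J1 : ℕ) (hK : 1 ≤ K) (hKJ : K ≤ J0) :
    1 / ((4 * K) ^ s * 4 * 4 ^ (s + 1)) * ∑ j ∈ Icc J0 J1, (1 : ℝ) / (j : ℝ) ≤ ∑ p ∈ PP s K J0 J1, Wm p := by
  unfold PP
  rw [sum_sigma, mul_sum]
  apply sum_le_sum
  intro j hj
  rw [mem_Icc] at hj
  have hj1 : 1 ≤ j := by omega
  have hjR : (1 : ℝ) ≤ j := by exact_mod_cast hj1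
  have hKR : (1 : ℝ) ≤ K := by exact_mod_cast hK
  have h1 : 1 ≤ j / K := by
    rw [Nat.one_le_div_iff (by omega)]; omega
  have h2 : j < K * (j / K + 1) := Nat.lt_mul_div_succ _ (by omega)
  have h3 : j ≤ 2 * K * (j / K) := by nlinarith
  have h4 : (j : ℝ) ≤ 2 * K * ((j / K : ℕ) : ℝ) := by exact_mod_cast h3
  have h5 : (j : ℝ) / (4 * K) ≤ ((j / K : ℕ) : ℝ) / 2 := by
    rw [div_le_div_iff₀ (by positivity) (by norm_num)]
    linarith
  have h6 := sum_AA_inv s (j / K)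
  have h7 : ((j : ℝ) / (4 * K)) ^ s ≤ ∑ a ∈ AA s (j / K), 1 / hh a :=
    (pow_le_pow_left₀ (by positivity) h5 s).trans h6
  have h8 : ∑ a ∈ AA s (j / K), Wm (⟨j, a⟩ : Σ _ : ℕ, Fin s → ℕ)
      = (∑ a ∈ AA s (j / K), 1 / hh a) * (1 / (4 * (2 * j + 2) ^ (s + 1))) := by
    rw [sum_mul]
    apply sum_congr rfl
    intro a ha
    rw [mem_AA] at ha
    have := hh_one a (fun i => (ha i).1)
    unfold Wm rr
    simp only
    rw [pow_succ (4 : ℝ) j]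
    field_simp
  rw [h8]
  have h9 : (1 : ℝ) / (4 * (4 * j) ^ (s + 1)) ≤ 1 / (4 * (2 * j + 2) ^ (s + 1)) := by
    apply one_div_le_one_div_of_le (by positivity)
    gcongr
    linarith
  calc 1 / ((4 * (K : ℝ)) ^ s * 4 * 4 ^ (s + 1)) * (1 / (j : ℝ))
      = ((j : ℝ) / (4 * K)) ^ s * (1 / (4 * (4 * j) ^ (s + 1))) := by
        rw [div_pow, mul_pow (4 : ℝ) (j : ℝ) (s + 1), pow_succ (j : ℝ) s]
        field_simp
    _ ≤ (∑ a ∈ AA s (j / K), 1 / hh a) * (1 / (4 * (2 * j + 2) ^ (s + 1))) := by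
        apply mul_le_mul h7 h9 (by positivity)
        exact le_trans (by positivity) h7

theorem mass_large (s K J0 : ℕ) (hK : 1 ≤ K) (hKJ : K ≤ J0) (M : ℝ) :
    ∃ J1, M ≤ ∑ p ∈ PP s K J0 J1, Wm p := by
  have h1 : Tendsto (fun n => ∑ i ∈ range n, (1 : ℝ) / (i : ℝ)) atTop atTop :=
    (not_summable_iff_tendsto_nat_atTop_of_nonneg (fun i => by positivity)).1
      Real.not_summable_one_div_natCast
  set κ : ℝ := 1 / ((4 * K) ^ s * 4 * 4 ^ (s + 1)) with hκ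
  have hKR : (1 : ℝ) ≤ K := by exact_mod_cast hK
  have hκ0 : 0 < κ := by positivity
  obtain ⟨n, hn⟩ := ((tendsto_atTop.1 h1 (M / κ + ∑ i ∈ range J0, (1 : ℝ) / (i : ℝ))).and
    (eventually_ge_atTop (J0 + 1))).exists
  refine ⟨n - 1, ?_⟩
  refine le_trans ?_ (mass_lower s K J0 (n - 1) hK hKJ)
  rw [← hκ]
  have h2 : Icc J0 (n - 1) = Ico J0 n := by
    ext x; simp only [mem_Icc, mem_Ico]; omega
  rw [h2, sum_Ico_eq_sub _ (by omega)]
  have h3 : M / κ ≤ ∑ i ∈ range n, (1 : ℝ) / (i : ℝ) - ∑ i ∈ range J0, (1 : ℝ) / (i : ℝ) := by linarith [hn.1]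
  rw [div_le_iff₀ hκ0] at h3
  linarith

theorem YY_bdd (s : ℕ) (c : ℝ) (hc : 0 < c) (K : ℕ) (h1 : 8 * s * (s + 1) ≤ K)
    (h2 : 4 * s * (4 * s ^ 2 + 4 * s + 2) ≤ K) :
    ∃ CZ : ℝ, ∀ j : ℕ, YY s c (j / K) j * (((j : ℝ) + 1) * (j + 2) * 2 ^ (s * (j / K))) ≤ CZ := by
  set F : ℕ := 4 * s ^ 2 + 4 * s + 2 with hF
  have hF0 : 0 < F := by omega
  have hFR : (0 : ℝ) < F := by exact_mod_cast hF0
  set C0 : ℝ := 2 ^ (2 * s + 4) / c ^ (2 * s + 2) with hC0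
  have hC00 : 0 < C0 := by positivity
  set ρ : ℝ := (2 : ℝ) ^ (-(1 : ℝ) / (4 * F)) with hρ
  have hρ0 : 0 < ρ := by positivity
  have hρ1 : ρ < 1 := by
    apply Real.rpow_lt_one_of_one_lt_of_neg (by norm_num)
    apply div_neg_of_neg_of_pos (by norm_num) (by positivity)
  have hρa : |ρ| < 1 := by rw [abs_of_pos hρ0]; exact hρ1
  have hb : Tendsto (fun j : ℕ => ((j : ℝ) + 1) * (j + 2) * ρ ^ j) atTop (𝓝 0) := by
    have t2 := tendsto_pow_const_mul_const_pow_of_abs_lt_one 2 hρa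
    have t1 := tendsto_pow_const_mul_const_pow_of_abs_lt_one 1 hρa
    have t0 := tendsto_pow_const_mul_const_pow_of_abs_lt_one 0 hρa
    have t := (t2.add (t1.const_mul 3)).add (t0.const_mul 2)
    simp only [mul_zero, add_zero] at t
    refine t.congr (fun j => ?_)
    ring
  obtain ⟨B, hB⟩ := hb.bddAbove_range
  refine ⟨C0 ^ ((1 : ℝ) / F) * B, fun j => ?_⟩
  have hBj : ((j : ℝ) + 1) * (j + 2) * ρ ^ j ≤ B := hB ⟨j, rfl⟩
  have hdiv : K * (j / K) ≤ j := Nat.mul_div_le j K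
  have e1 : 8 * s * (s + 1) * (j / K) ≤ j := (Nat.mul_le_mul_right _ h1).trans hdiv
  have e2 : 4 * s * F * (j / K) ≤ j := (Nat.mul_le_mul_right _ h2).trans hdiv
  have e1R : 8 * (s : ℝ) * (s + 1) * ((j / K : ℕ) : ℝ) ≤ j := by exact_mod_cast e1
  have e2R : 4 * (s : ℝ) * F * ((j / K : ℕ) : ℝ) ≤ j := by exact_mod_cast e2
  have f1 : (2 : ℝ) ^ (4 * s * (s + 1) * (j / K)) ≤ (2 : ℝ) ^ ((j : ℝ) / 2) := by
    rw [← Real.rpow_natCast]
    apply Real.rpow_le_rpow_of_exponent_le (by norm_num)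
    push_cast
    linarith
  have f2 : (2 : ℝ) ^ (s * (j / K)) ≤ (2 : ℝ) ^ ((j : ℝ) / (4 * F)) := by
    rw [← Real.rpow_natCast]
    apply Real.rpow_le_rpow_of_exponent_le (by norm_num)
    rw [le_div_iff₀ (by positivity)]
    push_cast
    linarith
  have f3 : YY s c (j / K) j ≤ C0 ^ ((1 : ℝ) / F) * (2 : ℝ) ^ (-(j : ℝ) / (2 * F)) := by
    unfold YY
    rw [← hF]
    calc ((2 : ℝ) ^ (2 * s + 4) * 2 ^ (4 * s * (s + 1) * (j / K)) / (c ^ (2 * s + 2) * 2 ^ j)) ^ ((1 : ℝ) / (F : ℝ))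
        ≤ (C0 * (2 : ℝ) ^ (-(j : ℝ) / 2)) ^ ((1 : ℝ) / (F : ℝ)) := by
          apply Real.rpow_le_rpow (by positivity) _ (by positivity)
          have e4 : (2 : ℝ) ^ (2 * s + 4) * 2 ^ (4 * s * (s + 1) * (j / K)) / (c ^ (2 * s + 2) * 2 ^ j)
              = C0 * (2 ^ (4 * s * (s + 1) * (j / K)) / 2 ^ j) := by
            rw [hC0]; field_simp
          rw [e4]
          apply mul_le_mul_of_nonneg_left _ hC00.le
          have e5 : (2 : ℝ) ^ (-(j : ℝ) / 2) = (2 : ℝ) ^ ((j : ℝ) / 2) / 2 ^ j := by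
            rw [← Real.rpow_natCast 2 j, ← Real.rpow_sub (by norm_num)]
            congr 1; ring
          rw [e5]
          exact div_le_div_of_nonneg_right f1 (by positivity)
      _ = C0 ^ ((1 : ℝ) / F) * (2 : ℝ) ^ (-(j : ℝ) / (2 * F)) := by
          rw [Real.mul_rpow hC00.le (by positivity), ← Real.rpow_mul (by norm_num)]
          congr 2
          field_simp
  have hρj : ρ ^ j = (2 : ℝ) ^ (-(j : ℝ) / (2 * F)) * (2 : ℝ) ^ ((j : ℝ) / (4 * F)) := by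
    rw [hρ, ← Real.rpow_natCast, ← Real.rpow_mul (by norm_num), ← Real.rpow_add (by norm_num)]
    congr 1
    field_simp
    ring
  calc YY s c (j / K) j * (((j : ℝ) + 1) * (j + 2) * 2 ^ (s * (j / K)))
      ≤ (C0 ^ ((1 : ℝ) / F) * (2 : ℝ) ^ (-(j : ℝ) / (2 * F))) * (((j : ℝ) + 1) * (j + 2) * (2 : ℝ) ^ ((j : ℝ) / (4 * F))) := by
        apply mul_le_mul f3 _ (by positivity) (by positivity)
        gcongr
    _ = C0 ^ ((1 : ℝ) / F) * (((j : ℝ) + 1) * (j + 2) * ρ ^ j) := by rw [hρj]; ring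
    _ ≤ _ := mul_le_mul_of_nonneg_left hBj (by positivity)

theorem UU_pos {s : ℕ} (hs : 1 ≤ s) (α : Fin s → ℝ) (c : ℝ) (hc : 0 < c) (hdio : Dio α c) :
    ∃ K : ℕ, 1 ≤ K ∧ s ≤ K ∧ ∃ δ : ℝ, 0 < δ ∧ ∀ J0 : ℕ, K ≤ J0 → 9 ≤ J0 → ∃ J1, δ ≤ volume.real (UU α K J0 J1) := by
  set K : ℕ := (4 * s ^ 2 + 4 * s + 2) * (8 * s ^ 2 + 12 * s) with hK
  have hK1 : 1 ≤ K := by
    apply Nat.mul_pos
    · omega
    · nlinarith
  have a1 : 8 * s * (s + 1) ≤ K := by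
    calc 8 * s * (s + 1) = 1 * (8 * s ^ 2 + 8 * s) := by ring
      _ ≤ (4 * s ^ 2 + 4 * s + 2) * (8 * s ^ 2 + 12 * s) := by
        apply Nat.mul_le_mul
        · omega
        · omega
  have a2 : 4 * s * (4 * s ^ 2 + 4 * s + 2) ≤ K := by
    calc 4 * s * (4 * s ^ 2 + 4 * s + 2) = (4 * s ^ 2 + 4 * s + 2) * (4 * s) := by ring
      _ ≤ (4 * s ^ 2 + 4 * s + 2) * (8 * s ^ 2 + 12 * s) := by
        apply Nat.mul_le_mul le_rfl
        omega
  have a3 : s ≤ K := by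
    calc s = 1 * s := by ring
      _ ≤ (4 * s ^ 2 + 4 * s + 2) * (8 * s ^ 2 + 12 * s) := by
        apply Nat.mul_le_mul
        · omega
        · omega
  refine ⟨K, hK1, a3, 1 / (81 * 1153), by norm_num, fun J0 hJ h9 => ?_⟩
  obtain ⟨CZ, hCZ⟩ := YY_bdd s c hc K a1 a2
  obtain ⟨J1, hJ1⟩ := mass_large s K J0 hK1 hJ (max 1 (96 * CZ + 8))
  refine ⟨J1, ?_⟩
  have hm := second_moment hs α c hc hdio K hK1 CZ hCZ J0 J1 hJ h9
  set S := ∑ p ∈ PP s K J0 J1, Wm p with hS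
  have hS1 : 1 ≤ S := (le_max_left _ _).trans hJ1
  have hS2 : 96 * CZ + 8 ≤ S := (le_max_right _ _).trans hJ1
  set v := volume.real (UU α K J0 J1) with hv
  have hv0 : 0 ≤ v := measureReal_nonneg
  have h1 : (96 * CZ + 8) * S ≤ S * S := mul_le_mul_of_nonneg_right hS2 (by linarith)
  have h2 : v * (1152 * S ^ 2 + (96 * CZ + 8) * S) ≤ v * (1153 * S ^ 2) := by
    apply mul_le_mul_of_nonneg_left _ hv0
    nlinarith
  have h3 : (1 / 9 * S) ^ 2 ≤ v * (1153 * S ^ 2) := hm.trans h2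
  have h4 : 0 < S ^ 2 := by positivity
  have h5 : 1 / 81 * S ^ 2 ≤ (v * 1153) * S ^ 2 := by
    calc 1 / 81 * S ^ 2 = (1 / 9 * S) ^ 2 := by ring
      _ ≤ _ := h3
      _ = _ := by ring
  have h6 := le_of_mul_le_mul_right h5 h4
  rw [div_le_iff₀ (by norm_num)]
  linarith

end Pool.Agent.H951R3
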