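import Mathlib
import Pool.Agent.H951R3.C8

set_option autoImplicit false

namespace Pool.Agent.H951R3

open Finset MeasureTheory Filter Topology

/-- the admissible index pairs -/
def good {s : ℕ} (q : (Fin s → ℕ) × ℕ) : Prop := (∀ i, 2 ≤ q.1 i) ∧ 2 ≤ q.2 ∧ hh q.1 ≤ q.2

/-- the radius function -/
noncomputable def rho {s : ℕ} (q : (Fin s → ℕ) × ℕ) : ℝ :=
  1 / (hh q.1 * 4 ^ (Nat.log 2 q.2) * ((Nat.log 2 q.2 : ℝ) + 1) ^ (s + 1))

theorem rho_nonneg {s : ℕ} (q : (Fin s → ℕ) × ℕ) : 0 ≤ rho q := by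
  unfold rho hh
  positivity

/-- the resonant points -/
def SS {s : ℕ} (α : Fin s → ℝ) (q : (Fin s → ℕ) × ℕ) : Set UnitAddCircle :=
  {z | q.2 • z + ((th α q.1 : ℝ) : UnitAddCircle) = 0}

theorem SS_closed {s : ℕ} (α : Fin s → ℝ) (q : (Fin s → ℕ) × ℕ) : IsClosed (SS α q) := by
  unfold SS
  apply isClosed_eq _ continuous_const
  fun_prop

/-- the limsup set -/
def WC {s : ℕ} (α : Fin s → ℝ) (C : ℝ) : Set UnitAddCircle :=
  {y | {q : (Fin s → ℕ) × ℕ | good q ∧ y ∈ Metric.cthickening (C * rho q) (SS α q)}.Infinite}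

theorem good_finite (s : ℕ) (ε : ℝ) (hε : 0 < ε) :
    {q : (Fin s → ℕ) × ℕ | good q ∧ ε ≤ rho q}.Finite := by
  obtain ⟨N, hN⟩ := exists_nat_ge (2 / ε)
  apply ((Set.Finite.pi (fun _ : Fin s => Set.finite_Iic N)).prod (Set.finite_Iic N)).subset
  intro q hq
  obtain ⟨⟨h2, hb, hhb⟩, hr⟩ := hq
  have hh1 := hh_one q.1 h2
  set L := Nat.log 2 q.2 with hL
  have h3 : rho q ≤ 1 / 2 ^ L := by
    unfold rho
    apply one_div_le_one_div_of_le (by positivity)
    have h4 : (1 : ℝ) ≤ ((L : ℝ) + 1) ^ (s + 1) := one_le_pow₀ (by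
      have : (0 : ℝ) ≤ L := Nat.cast_nonneg L
      linarith)
    calc (2 : ℝ) ^ L = 1 * 2 ^ L * 1 := by ring
      _ ≤ hh q.1 * 4 ^ L * ((L : ℝ) + 1) ^ (s + 1) := by
        gcongr
        norm_num
  have h5 : ε ≤ 1 / 2 ^ L := hr.trans h3
  have h6 : q.2 < 2 ^ (L + 1) := Nat.lt_pow_succ_log_self (by norm_num) _
  have h7 : (q.2 : ℝ) ≤ 2 * 2 ^ L := by
    have : (q.2 : ℝ) < 2 ^ (L + 1) := by exact_mod_cast h6
    rw [pow_succ] at this
    linarith
  have h8 : (2 : ℝ) ^ L ≤ 1 / ε := by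
    rw [le_div_iff₀ hε]
    rw [le_div_iff₀ (by positivity)] at h5
    linarith
  have h9 : (q.2 : ℝ) ≤ N := by
    calc (q.2 : ℝ) ≤ 2 * 2 ^ L := h7
      _ ≤ 2 * (1 / ε) := by gcongr
      _ = 2 / ε := by ring
      _ ≤ N := hN
  refine ⟨?_, by exact_mod_cast h9⟩
  rw [Set.mem_pi]
  intro i _
  have h10 : (q.1 i : ℝ) ≤ hh q.1 := by
    unfold hh
    rw [← Finset.mul_prod_erase univ _ (mem_univ i)]
    have : 1 ≤ ∏ k ∈ univ.erase i, (q.1 k : ℝ) := by
      have h11 : ∏ k ∈ univ.erase i, (1 : ℝ) ≤ ∏ k ∈ univ.erase i, (q.1 k : ℝ) :=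
        Finset.prod_le_prod (fun _ _ => by norm_num) (fun k _ => by
          have := h2 k
          exact_mod_cast (by omega : 1 ≤ q.1 k))
      simpa using h11
    calc (q.1 i : ℝ) = q.1 i * 1 := by ring
      _ ≤ _ := mul_le_mul_of_nonneg_left this (Nat.cast_nonneg _)
  have h12 : (q.1 i : ℝ) ≤ N := h10.trans (hhb.trans h9)
  exact_mod_cast h12

theorem WC_blimsup {s : ℕ} (α : Fin s → ℝ) (e : ℕ ≃ (Fin s → ℕ) × ℕ) (C : ℝ) (r : ℕ → ℝ)
    (hr : ∀ i, good (e i) → r i = rho (e i)) :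
    WC α C = blimsup (fun i => Metric.cthickening (C * r i) (SS α (e i))) atTop (fun i => good (e i)) := by
  rw [← Nat.cofinite_eq_atTop, cofinite.blimsup_set_eq]
  unfold WC
  ext y
  simp only [Set.mem_ofPred_eq]
  have h1 : {q : (Fin s → ℕ) × ℕ | good q ∧ y ∈ Metric.cthickening (C * rho q) (SS α q)}
      = e '' {i | good (e i) ∧ y ∈ Metric.cthickening (C * r i) (SS α (e i))} := by
    ext q
    simp only [Set.mem_ofPred_eq, Set.mem_image]
    constructor
    · intro hq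
      refine ⟨e.symm q, ?_, e.apply_symm_apply q⟩
      rw [hr _ (by rw [e.apply_symm_apply]; exact hq.1), e.apply_symm_apply]
      exact hq
    · rintro ⟨i, hi, rfl⟩
      rw [hr _ hi.1] at hi
      exact hi
  rw [h1, Set.infinite_image_iff e.injective.injOn]

theorem exists_enum (s : ℕ) : ∃ (e : ℕ ≃ (Fin s → ℕ) × ℕ) (r : ℕ → ℝ), Tendsto r atTop (𝓝 0) ∧
    ∀ i, good (e i) → r i = rho (e i) := by
  classical
  obtain ⟨d⟩ := nonempty_denumerable ((Fin s → ℕ) × ℕ)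
  set e : ℕ ≃ (Fin s → ℕ) × ℕ := (Denumerable.eqv _).symm with he
  refine ⟨e, fun i => if good (e i) then rho (e i) else 0, ?_, fun i hi => by simp only [if_pos hi]⟩
  rw [← Nat.cofinite_eq_atTop, Metric.tendsto_nhds]
  intro ε hε
  rw [eventually_cofinite]
  have h1 := good_finite s ε hε
  apply (h1.preimage (e.injective.injOn)).subset
  intro i hi
  simp only [Set.mem_ofPred_eq, not_lt, dist_zero_right, Real.norm_eq_abs] at hi
  simp only [Set.mem_preimage, Set.mem_ofPred_eq]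
  by_cases hg : good (e i)
  · rw [if_pos hg, abs_of_nonneg (rho_nonneg _)] at hi
    exact ⟨hg, hi⟩
  · rw [if_neg hg, abs_zero] at hi
    linarith

theorem WC_ae {s : ℕ} (α : Fin s → ℝ) (C C' : ℝ) (hC : 0 < C) (hC' : 0 < C') :
    (WC α C : Set UnitAddCircle) =ᵐ[volume] (WC α C' : Set UnitAddCircle) := by
  obtain ⟨e, r, hr0, hr⟩ := exists_enum s
  rw [WC_blimsup α e C r hr, WC_blimsup α e C' r hr]
  exact (blimsup_cthickening_mul_ae_eq volume _ _ hC r hr0).trans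
    (blimsup_cthickening_mul_ae_eq volume _ _ hC' r hr0).symm

theorem WC_meas {s : ℕ} (α : Fin s → ℝ) (C : ℝ) : MeasurableSet (WC α C) := by
  obtain ⟨e, r, hr0, hr⟩ := exists_enum s
  rw [WC_blimsup α e C r hr]
  exact MeasurableSet.measurableSet_blimsup (fun i _ => Metric.isClosed_cthickening.measurableSet)

theorem norm_coe_le (x : ℝ) : ‖(x : UnitAddCircle)‖ ≤ |x| := by
  rw [UnitAddCircle.norm_eq]
  have := round_le x 0
  simpa using this

theorem half_point (y z : UnitAddCircle) : ∃ z' : UnitAddCircle, 2 • z' = z ∧ dist y z' ≤ dist (2 • y) z / 2 := by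
  obtain ⟨u, rfl⟩ := QuotientAddGroup.mk_surjective y
  obtain ⟨v, rfl⟩ := QuotientAddGroup.mk_surjective z
  set n : ℤ := round (2 * u - v) with hn
  set w : ℝ := v + n with hw
  have hwv : ((w : ℝ) : UnitAddCircle) = ((v : ℝ) : UnitAddCircle) := by
    rw [hw, AddCircle.coe_add]
    have : (((n : ℤ) : ℝ) : UnitAddCircle) = 0 := by
      rw [AddCircle.coe_eq_zero_iff]
      exact ⟨n, by simp⟩
    rw [this, add_zero]
  refine ⟨((w / 2 : ℝ) : UnitAddCircle), ?_, ?_⟩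
  · change _ = ((v : ℝ) : UnitAddCircle)
    rw [← hwv, ← AddCircle.coe_nsmul]
    congr 1
    rw [nsmul_eq_mul]
    push_cast
    ring
  · change dist ((u : ℝ) : UnitAddCircle) _ ≤ dist (2 • ((u : ℝ) : UnitAddCircle)) ((v : ℝ) : UnitAddCircle) / 2
    rw [dist_eq_norm, dist_eq_norm, ← AddCircle.coe_nsmul, ← AddCircle.coe_sub, ← AddCircle.coe_sub]
    refine (norm_coe_le _).trans ?_
    rw [UnitAddCircle.norm_eq]
    have h1 : (2 • u - v : ℝ) = 2 * u - v := by rw [nsmul_eq_mul]; push_cast; ring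
    rw [h1, ← hn]
    have h2 : u - w / 2 = (2 * u - v - n) / 2 := by rw [hw]; ring
    rw [h2, abs_div, abs_two]

theorem WC_preimage {s : ℕ} (α : Fin s → ℝ) (C : ℝ) (hC : 0 < C) :
    (fun y : UnitAddCircle => 2 • y) ⁻¹' (WC α C) ⊆ WC α (2 ^ (s + 2) * C) := by
  intro y hy
  simp only [Set.mem_preimage, WC, Set.mem_ofPred_eq] at hy ⊢
  have hinj : Function.Injective (fun q : (Fin s → ℕ) × ℕ => (q.1, q.2 * 2)) := by
    intro q q' h
    simp only [Prod.mk.injEq] at h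
    exact Prod.ext h.1 (by omega)
  apply ((Set.infinite_image_iff hinj.injOn).2 hy).mono
  rintro _ ⟨q, ⟨⟨h2, hb, hhb⟩, hq⟩, rfl⟩
  simp only [Set.mem_ofPred_eq]
  have hρ := rho_nonneg q
  have hhpos : 0 < hh q.1 := lt_of_lt_of_le one_pos (hh_one q.1 h2)
  refine ⟨⟨h2, by simp only; omega, ?_⟩, ?_⟩
  · simp only
    push_cast
    have : (0 : ℝ) ≤ q.2 := Nat.cast_nonneg _
    linarith
  · rw [(SS_closed α q).isCompact.cthickening_eq_biUnion_closedBall (by positivity)] at hq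
    simp only [Set.mem_iUnion, Metric.mem_closedBall] at hq
    obtain ⟨z, hz, hd⟩ := hq
    obtain ⟨z', hz', hd'⟩ := half_point y z
    have hρ2 := rho_nonneg (q.1, q.2 * 2)
    rw [(SS_closed α (q.1, q.2 * 2)).isCompact.cthickening_eq_biUnion_closedBall (by positivity)]
    simp only [Set.mem_iUnion, Metric.mem_closedBall]
    refine ⟨z', ?_, ?_⟩
    · unfold SS at hz ⊢
      simp only [Set.mem_ofPred_eq] at hz ⊢
      rw [mul_nsmul', hz']
      exact hz
    · refine hd'.trans ?_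
      have hlog : Nat.log 2 (q.2 * 2) = Nat.log 2 q.2 + 1 := Nat.log_mul_base (by norm_num) (by omega)
      set L := Nat.log 2 q.2 with hL
      have e1 : rho q = 1 / (hh q.1 * 4 ^ L * ((L : ℝ) + 1) ^ (s + 1)) := rfl
      have e2 : rho (q.1, q.2 * 2) = 1 / (hh q.1 * 4 ^ (L + 1) * ((L : ℝ) + 2) ^ (s + 1)) := by
        unfold rho
        simp only
        rw [hlog]
        push_cast
        ring_nf
      have h3 : rho q ≤ 2 * (2 ^ (s + 2) * rho (q.1, q.2 * 2)) := by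
        rw [e1, e2]
        have h4 : 2 * (2 ^ (s + 2) * (1 / (hh q.1 * 4 ^ (L + 1) * ((L : ℝ) + 2) ^ (s + 1))))
            = 1 / (hh q.1 * 4 ^ L * (((L : ℝ) + 2) / 2) ^ (s + 1)) := by
          rw [div_pow, pow_succ (4 : ℝ) L, pow_succ (2 : ℝ) (s + 1)]
          field_simp
          norm_num
        rw [h4]
        apply one_div_le_one_div_of_le (by positivity)
        have h5 : (0 : ℝ) ≤ L := Nat.cast_nonneg L
        gcongr
        linarith
      calc dist (2 • y) z / 2 ≤ C * rho q / 2 := by gcongr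
        _ ≤ C * (2 * (2 ^ (s + 2) * rho (q.1, q.2 * 2))) / 2 := by gcongr
        _ = _ := by ring

theorem WC_zero_one {s : ℕ} (α : Fin s → ℝ) (C : ℝ) (hC : 0 < C) :
    (WC α C : Set UnitAddCircle) =ᵐ[volume] (∅ : Set UnitAddCircle)
      ∨ (WC α C : Set UnitAddCircle) =ᵐ[volume] (Set.univ : Set UnitAddCircle) := by
  have h1 : Ergodic (fun y : UnitAddCircle => 2 • y) volume := AddCircle.ergodic_nsmul (by norm_num)
  apply h1.ae_empty_or_univ_of_preimage_ae_le (WC_meas α C).nullMeasurableSet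
  have h2 : (fun y : UnitAddCircle => 2 • y) ⁻¹' (WC α C) ≤ᵐ[volume] WC α (2 ^ (s + 2) * C) :=
    (WC_preimage α C hC).eventuallyLE
  exact h2.trans (WC_ae α _ _ (by positivity) hC).le

end Pool.Agent.H951R3
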