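import Mathlib
import Pool.Agent.H951R3.C9

set_option autoImplicit false

namespace Pool.Agent.H951R3

open Finset MeasureTheory Filter Topology

/-- the tail unions -/
noncomputable def EE {s : ℕ} (α : Fin s → ℝ) (K J : ℕ) : Set UnitAddCircle := ⋃ J1, UU α K J J1

theorem UU_meas {s : ℕ} (α : Fin s → ℝ) (K J J1 : ℕ) : MeasurableSet (UU α K J J1) := by
  unfold UU
  exact Finset.measurableSet_biUnion _ (fun q _ => Metric.isClosed_closedBall.measurableSet)

theorem EE_meas {s : ℕ} (α : Fin s → ℝ) (K J : ℕ) : MeasurableSet (EE α K J) := by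
  unfold EE
  exact MeasurableSet.iUnion (fun J1 => UU_meas α K J J1)

theorem mem_EE {s : ℕ} (α : Fin s → ℝ) (K J : ℕ) (y : UnitAddCircle) : y ∈ EE α K J ↔
    ∃ (j : ℕ) (a : Fin s → ℕ) (b x : ℕ), J ≤ j ∧ a ∈ AA s (j / K) ∧ b ∈ BB j ∧ x ∈ XX b ∧
      y ∈ Metric.closedBall (ctr (th α a) b x) (rr j a) := by
  unfold EE UU
  simp only [Set.mem_iUnion, mem_sigma, mem_PP, VV]
  constructor
  · rintro ⟨J1, ⟨⟨j, a⟩, b, x⟩, h, hy⟩
    exact ⟨j, a, b, x, h.1.1.1, h.1.2, h.2.1, h.2.2, hy⟩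
  · rintro ⟨j, a, b, x, h1, h2, h3, h4, hy⟩
    exact ⟨j, ⟨⟨j, a⟩, b, x⟩, ⟨⟨⟨h1, le_rfl⟩, h2⟩, h3, h4⟩, hy⟩

theorem EE_anti {s : ℕ} (α : Fin s → ℝ) (K : ℕ) : Antitone (EE α K) := by
  intro J J' hJ y hy
  rw [mem_EE] at hy ⊢
  obtain ⟨j, a, b, x, h1, h⟩ := hy
  exact ⟨j, a, b, x, hJ.trans h1, h⟩

theorem hh_le {s : ℕ} (a : Fin s → ℕ) (l : ℕ) (ha : a ∈ AA s l) : hh a ≤ 2 ^ (s * l) := by
  rw [mem_AA] at ha
  unfold hh
  calc ∏ i, (a i : ℝ) ≤ ∏ _i : Fin s, (2 : ℝ) ^ l :=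
        Finset.prod_le_prod (fun _ _ => Nat.cast_nonneg _) (fun i _ => by exact_mod_cast (ha i).2)
    _ = 2 ^ (s * l) := by rw [prod_const, card_univ, Fintype.card_fin, ← pow_mul, mul_comm]

theorem EE_sub {s : ℕ} (α : Fin s → ℝ) (K : ℕ) (hK : 1 ≤ K) (hsK : s ≤ K) :
    ⋂ J, EE α K J ⊆ WC α (1 / (4 * 2 ^ (s + 1))) := by
  intro y hy
  rw [Set.mem_iInter] at hy
  have key : ∀ J : ℕ, 1 ≤ J → ∃ q : (Fin s → ℕ) × ℕ, (good q ∧
      y ∈ Metric.cthickening (1 / (4 * 2 ^ (s + 1)) * rho q) (SS α q)) ∧ 2 ^ J ≤ q.2 := by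
    intro J hJ
    obtain ⟨j, a, b, x, h1, ha, hb, hx, hyb⟩ := (mem_EE α K J y).1 (hy J)
    have hha := hh_le a _ ha
    rw [mem_AA] at ha
    rw [mem_BB] at hb
    have hj1 : 1 ≤ j := hJ.trans h1
    have hlog : Nat.log 2 b = j := by
      apply Nat.log_eq_of_pow_le_of_lt_pow hb.1 hb.2
    have hb2 : 2 ≤ b := by
      calc 2 = 2 ^ 1 := by norm_num
        _ ≤ 2 ^ j := Nat.pow_le_pow_right (by norm_num) hj1
        _ ≤ b := hb.1
    have hJb : 2 ^ J ≤ b := (Nat.pow_le_pow_right (by norm_num) h1).trans hb.1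
    refine ⟨(a, b), ⟨⟨fun i => (ha i).1, hb2, ?_⟩, ?_⟩, hJb⟩
    · refine hha.trans ?_
      have h2 : s * (j / K) ≤ j := by
        calc s * (j / K) ≤ K * (j / K) := Nat.mul_le_mul_right _ hsK
          _ ≤ j := Nat.mul_div_le j K
      calc (2 : ℝ) ^ (s * (j / K)) ≤ 2 ^ j := pow_le_pow_right₀ (by norm_num) h2
        _ ≤ b := by exact_mod_cast hb.1
    · have hρ := rho_nonneg (a, b)
      rw [(SS_closed α (a, b)).isCompact.cthickening_eq_biUnion_closedBall (by positivity)]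
      simp only [Set.mem_iUnion]
      refine ⟨ctr (th α a) b x, ?_, ?_⟩
      · unfold SS ctr
        simp only [Set.mem_ofPred_eq]
        rw [← AddCircle.coe_nsmul, ← AddCircle.coe_add, AddCircle.coe_eq_zero_iff]
        refine ⟨x, ?_⟩
        rw [nsmul_eq_mul]
        have hbR : (b : ℝ) ≠ 0 := by
          have : 0 < b := by omega
          exact_mod_cast this.ne'
        simp only [zsmul_eq_mul, mul_one]
        push_cast
        field_simp
        ring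
      · have h3 : rr j a = 1 / (4 * 2 ^ (s + 1)) * rho (a, b) := by
          unfold rr rho
          simp only
          rw [hlog]
          have h4 : (2 * (j : ℝ) + 2) ^ (s + 1) = 2 ^ (s + 1) * ((j : ℝ) + 1) ^ (s + 1) := by
            rw [← mul_pow]; congr 1; ring
          rw [h4, pow_succ (4 : ℝ) j, one_div_mul_one_div]
          congr 1
          ring
        rw [← h3]
        exact hyb
  intro hfin
  have h2 := (hfin.image Prod.snd).bddAbove
  obtain ⟨N, hN⟩ := h2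
  obtain ⟨q, hq, hqN⟩ := key (N + 1) (by omega)
  have h3 : q.2 ≤ N := hN ⟨q, hq, rfl⟩
  have h4 : N + 1 < 2 ^ (N + 1) := Nat.lt_two_pow_self
  omega

theorem WC_full {s : ℕ} (hs : 1 ≤ s) (α : Fin s → ℝ) (c : ℝ) (hc : 0 < c) (hdio : Dio α c) :
    ∀ᵐ y : UnitAddCircle, y ∈ WC α (1 / (4 * 2 ^ (s + 1))) := by
  obtain ⟨K, hK, hsK, δ, hδ, h⟩ := UU_pos hs α c hc hdio
  have hge : ENNReal.ofReal δ ≤ volume (⋂ J, EE α K J) := by
    have ht := tendsto_measure_iInter_atTop (μ := (volume : Measure UnitAddCircle)) (s := EE α K)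
      (fun J => (EE_meas α K J).nullMeasurableSet) (EE_anti α K) ⟨0, measure_ne_top _ _⟩
    refine ge_of_tendsto ht ?_
    filter_upwards [eventually_ge_atTop (max K 9)] with J hJ
    obtain ⟨J1, hJ1⟩ := h J ((le_max_left _ _).trans hJ) ((le_max_right _ _).trans hJ)
    refine (ENNReal.ofReal_le_of_le_toReal hJ1).trans ?_
    apply measure_mono
    exact Set.subset_iUnion (fun J1 => UU α K J J1) J1
  have hpos : ENNReal.ofReal δ ≤ volume (WC α (1 / (4 * 2 ^ (s + 1)))) :=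
    hge.trans (measure_mono (EE_sub α K hK hsK))
  have hδ' : 0 < ENNReal.ofReal δ := ENNReal.ofReal_pos.2 hδ
  rcases WC_zero_one α (1 / (4 * 2 ^ (s + 1))) (by positivity) with h0 | h1
  · exfalso
    have := measure_congr h0
    rw [measure_empty] at this
    rw [this] at hpos
    exact absurd hpos (not_le.2 hδ')
  · filter_upwards [h1] with y hy
    have hy' : (y ∈ WC α (1 / (4 * 2 ^ (s + 1)))) = (y ∈ (Set.univ : Set UnitAddCircle)) := hy
    rw [hy']
    exact Set.mem_univ y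

theorem ae_real (P : UnitAddCircle → Prop) (h : ∀ᵐ y : UnitAddCircle, P y) :
    ∀ᵐ t : ℝ, P ((t : ℝ) : UnitAddCircle) := by
  have h1 : ∀ n : ℤ, ∀ᵐ t : ℝ ∂(volume.restrict (Set.Ioc (n : ℝ) ((n : ℝ) + 1))), P ((t : ℝ) : UnitAddCircle) := by
    intro n
    exact (AddCircle.measurePreserving_mk 1 (n : ℝ)).quasiMeasurePreserving.ae h
  have h2 : ∀ᵐ t : ℝ ∂(volume.restrict (⋃ n : ℤ, Set.Ioc (n : ℝ) ((n : ℝ) + 1))), P ((t : ℝ) : UnitAddCircle) := by
    rw [ae_restrict_iUnion_iff]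
    exact h1
  rw [iUnion_Ioc_intCast, Measure.restrict_univ] at h2
  exact h2

/-- from membership in the limsup set to the inequality -/
theorem size_step {s : ℕ} (α : Fin s → ℝ) (q : (Fin s → ℕ) × ℕ) (hq : good q) (t : ℝ)
    (ht : ((t : ℝ) : UnitAddCircle) ∈ Metric.cthickening (1 / (4 * 2 ^ (s + 1)) * rho q) (SS α q)) :
    |(th α q.1 + q.2 * t) - (round (th α q.1 + q.2 * t) : ℝ)|
      < 1 / ((hh q.1 * q.2) * (Real.log (hh q.1 * q.2)) ^ (s + 1)) := by
  obtain ⟨h2, hb, hhb⟩ := hq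
  have hh1 := hh_one q.1 h2
  have hhpos : 0 < hh q.1 := by linarith
  have hρ := rho_nonneg q
  rw [(SS_closed α q).isCompact.cthickening_eq_biUnion_closedBall (by positivity)] at ht
  simp only [Set.mem_iUnion, Metric.mem_closedBall] at ht
  obtain ⟨z, hz, hd⟩ := ht
  have hbR : (2 : ℝ) ≤ q.2 := by exact_mod_cast hb
  have e1 : (((th α q.1 + q.2 * t : ℝ)) : UnitAddCircle) = q.2 • (((t : ℝ) : UnitAddCircle) - z) := by
    unfold SS at hz
    simp only [Set.mem_ofPred_eq] at hz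
    rw [smul_sub, AddCircle.coe_add, ← nsmul_eq_mul, AddCircle.coe_nsmul]
    have : q.2 • z = - ((th α q.1 : ℝ) : UnitAddCircle) := eq_neg_of_add_eq_zero_left hz
    rw [this]
    abel
  have e2 : ‖(((th α q.1 + q.2 * t : ℝ)) : UnitAddCircle)‖ ≤ q.2 * (1 / (4 * 2 ^ (s + 1)) * rho q) := by
    rw [e1]
    refine (norm_nsmul_le).trans ?_
    rw [dist_eq_norm] at hd
    exact mul_le_mul_of_nonneg_left hd (Nat.cast_nonneg _)
  rw [UnitAddCircle.norm_eq] at e2
  refine lt_of_le_of_lt e2 ?_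
  set L := Nat.log 2 q.2 with hL
  have hb1 : q.2 < 2 ^ (L + 1) := Nat.lt_pow_succ_log_self (by norm_num) _
  have hb1R : (q.2 : ℝ) < 2 ^ (L + 1) := by exact_mod_cast hb1
  have eρ : rho q = 1 / (hh q.1 * 4 ^ L * ((L : ℝ) + 1) ^ (s + 1)) := rfl
  have hLR : (0 : ℝ) ≤ L := Nat.cast_nonneg L
  have hH2 : 2 ≤ hh q.1 * q.2 := by nlinarith
  have hHlt : hh q.1 * q.2 < 2 ^ (2 * L + 2) := by
    calc hh q.1 * q.2 ≤ q.2 * q.2 := by gcongr
      _ < 2 ^ (L + 1) * 2 ^ (L + 1) := by gcongr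
      _ = 2 ^ (2 * L + 2) := by rw [← pow_add]; congr 1; ring
  have hlog0 : 0 < Real.log (hh q.1 * q.2) := Real.log_pos (by linarith)
  have hlog : Real.log (hh q.1 * q.2) ≤ 2 * L + 2 := by
    have h3 := Real.log_le_log (by linarith) hHlt.le
    rw [Real.log_pow] at h3
    have h4 : Real.log 2 ≤ 1 := by
      have := Real.log_two_lt_d9
      linarith
    push_cast at h3
    nlinarith
  rw [eρ]
  have hlt : (hh q.1 * q.2) * (Real.log (hh q.1 * q.2)) ^ (s + 1) < hh q.1 * 2 ^ (L + 1) * (2 * L + 2) ^ (s + 1) := by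
    calc (hh q.1 * q.2) * (Real.log (hh q.1 * q.2)) ^ (s + 1)
        < (hh q.1 * 2 ^ (L + 1)) * (Real.log (hh q.1 * q.2)) ^ (s + 1) := by gcongr
      _ ≤ _ := by gcongr
  have h5 : (q.2 : ℝ) * (1 / (4 * 2 ^ (s + 1)) * (1 / (hh q.1 * 4 ^ L * ((L : ℝ) + 1) ^ (s + 1))))
      ≤ 1 / (hh q.1 * 2 ^ (L + 1) * (2 * L + 2) ^ (s + 1)) := by
    have h6 : (2 * (L : ℝ) + 2) ^ (s + 1) = 2 ^ (s + 1) * ((L : ℝ) + 1) ^ (s + 1) := by
      rw [← mul_pow]; congr 1; ring
    have h44 : (4 : ℝ) ^ L = 2 ^ L * 2 ^ L := by rw [← mul_pow]; norm_num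
    calc (q.2 : ℝ) * (1 / (4 * 2 ^ (s + 1)) * (1 / (hh q.1 * 4 ^ L * ((L : ℝ) + 1) ^ (s + 1))))
        ≤ 2 ^ (L + 1) * (1 / (4 * 2 ^ (s + 1)) * (1 / (hh q.1 * 4 ^ L * ((L : ℝ) + 1) ^ (s + 1)))) := by gcongr
      _ = 1 / (hh q.1 * 2 ^ (L + 1) * (2 * L + 2) ^ (s + 1)) := by
        rw [h6, h44, pow_succ (2 : ℝ) L]
        field_simp
        norm_num
  refine lt_of_le_of_lt h5 ?_
  apply one_div_lt_one_div_of_lt _ hlt
  positivity

/-- the Diophantine condition fails only if there are infinitely many good multipliers -/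
theorem dio_of_finite {s : ℕ} (α : Fin s → ℝ)
    (hfin : {B : Fin s → ℤ | |(∑ i, (B i : ℝ) * α i) - round (∑ i, (B i : ℝ) * α i)|
      < 1 / ((2 * ∏ i, max |(B i : ℝ)| 2) * (Real.log (2 * ∏ i, max |(B i : ℝ)| 2)) ^ (s + 1))}.Finite) :
    ∃ c : ℝ, 0 < c ∧ Dio α c := by
  classical
  set Ω := {B : Fin s → ℤ | |(∑ i, (B i : ℝ) * α i) - round (∑ i, (B i : ℝ) * α i)|
      < 1 / ((2 * ∏ i, max |(B i : ℝ)| 2) * (Real.log (2 * ∏ i, max |(B i : ℝ)| 2)) ^ (s + 1))} with hΩ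
  have hP : ∀ B : Fin s → ℤ, 1 ≤ ∏ i, max |(B i : ℝ)| 2 := by
    intro B
    have : ∏ _i : Fin s, (1 : ℝ) ≤ ∏ i, max |(B i : ℝ)| 2 :=
      Finset.prod_le_prod (fun _ _ => by norm_num) (fun i _ => le_trans (by norm_num) (le_max_right _ _))
    simpa using this
  have hlog : ∀ B : Fin s → ℤ, 0 < Real.log (2 * ∏ i, max |(B i : ℝ)| 2) := by
    intro B
    apply Real.log_pos
    have := hP B
    linarith
  -- no nonzero B has an integer value
  have hnz : ∀ B : Fin s → ℤ, B ≠ 0 → (∑ i, (B i : ℝ) * α i) - round (∑ i, (B i : ℝ) * α i) ≠ 0 := by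
    intro B hB h0
    have hsub : Set.range (fun k : ℤ => (fun i => k * B i : Fin s → ℤ)) ⊆ Ω := by
      rintro _ ⟨k, rfl⟩
      rw [hΩ]
      simp only [Set.mem_ofPred_eq]
      have h1 : (∑ i, ((k * B i : ℤ) : ℝ) * α i) = ((k * round (∑ i, (B i : ℝ) * α i) : ℤ) : ℝ) := by
        push_cast
        rw [← sub_eq_zero.1 h0, mul_sum]
        apply sum_congr rfl
        intro i _
        ring
      rw [h1, round_intCast, sub_self, abs_zero]
      have h2 := hP (fun i => k * B i)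
      have h3 := hlog (fun i => k * B i)
      positivity
    have hinf : (Set.range (fun k : ℤ => (fun i => k * B i : Fin s → ℤ))).Infinite := by
      apply Set.infinite_range_of_injective
      intro k k' hkk
      obtain ⟨i, hi⟩ := Function.ne_iff.1 hB
      have := congrFun hkk i
      simp only at this
      exact mul_right_cancel₀ hi this
    exact hinf (hfin.subset hsub)
  set d : (Fin s → ℤ) → ℝ := fun B => |(∑ i, (B i : ℝ) * α i) - round (∑ i, (B i : ℝ) * α i)| with hd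
  set c1 : ℝ := 1 / (4 * (s + 1).factorial) with hc1
  have hc10 : 0 < c1 := by positivity
  -- the minimum over the exceptional set
  obtain ⟨c2, hc20, hc2⟩ : ∃ c2 : ℝ, 0 < c2 ∧ ∀ B ∈ Ω, B ≠ 0 → c2 ≤ d B := by
    have h1 : ∀ B ∈ hfin.toFinset.filter (fun B => B ≠ 0), 0 < d B := by
      intro B hB
      rw [mem_filter] at hB
      exact abs_pos.2 (hnz B hB.2)
    rcases (hfin.toFinset.filter (fun B => B ≠ 0)).eq_empty_or_nonempty with he | hne
    · refine ⟨1, one_pos, fun B hB hB0 => ?_⟩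
      exfalso
      have : B ∈ hfin.toFinset.filter (fun B => B ≠ 0) := by
        rw [mem_filter, Set.Finite.mem_toFinset]
        exact ⟨hB, hB0⟩
      rw [he] at this
      exact absurd this (Finset.notMem_empty _)
    · obtain ⟨B0, hB0, hmin⟩ := Finset.exists_min_image _ d hne
      refine ⟨d B0, h1 B0 hB0, fun B hB hBn => hmin B ?_⟩
      rw [mem_filter, Set.Finite.mem_toFinset]
      exact ⟨hB, hBn⟩
  refine ⟨min c1 c2, lt_min hc10 hc20, ?_⟩
  intro B hB z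
  have hPB := hP B
  have hz : d B ≤ |(∑ i, (B i : ℝ) * α i) - z| := round_le _ _
  by_cases hBΩ : B ∈ Ω
  · have h1 := hc2 B hBΩ hB
    have h2 : (1 : ℝ) ≤ (∏ i, max |(B i : ℝ)| 2) ^ 2 := one_le_pow₀ hPB
    have h3 : 0 ≤ |(∑ i, (B i : ℝ) * α i) - z| := abs_nonneg _
    calc min c1 c2 ≤ c2 := min_le_right _ _
      _ ≤ |(∑ i, (B i : ℝ) * α i) - z| * 1 := by rw [mul_one]; exact h1.trans hz
      _ ≤ _ := mul_le_mul_of_nonneg_left h2 h3
  · have h1 : 1 / ((2 * ∏ i, max |(B i : ℝ)| 2) * (Real.log (2 * ∏ i, max |(B i : ℝ)| 2)) ^ (s + 1)) ≤ d B := by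
      rw [hΩ] at hBΩ
      simp only [Set.mem_ofPred_eq, not_lt] at hBΩ
      exact hBΩ
    set P := ∏ i, max |(B i : ℝ)| 2 with hPdef
    have hlogB := hlog B
    rw [← hPdef] at hlogB
    have h2 := Real.pow_div_factorial_le_exp (Real.log (2 * P)) hlogB.le (s + 1)
    rw [Real.exp_log (by linarith)] at h2
    have hfac : (0 : ℝ) < (s + 1).factorial := by exact_mod_cast Nat.factorial_pos _
    have h3 : (Real.log (2 * P)) ^ (s + 1) ≤ 2 * P * (s + 1).factorial := by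
      rwa [div_le_iff₀ hfac] at h2
    have h4 : 1 / ((2 * P) * (2 * P * (s + 1).factorial)) ≤ 1 / ((2 * P) * (Real.log (2 * P)) ^ (s + 1)) := by
      apply one_div_le_one_div_of_le (by positivity)
      apply mul_le_mul_of_nonneg_left h3 (by linarith)
    have h5 : 1 / ((2 * P) * (2 * P * (s + 1).factorial)) * P ^ 2 = c1 := by
      rw [hc1]
      have hP0 : P ≠ 0 := by linarith
      field_simp
      norm_num
    calc min c1 c2 ≤ c1 := min_le_left _ _
      _ = 1 / ((2 * P) * (2 * P * (s + 1).factorial)) * P ^ 2 := h5.symm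
      _ ≤ |(∑ i, (B i : ℝ) * α i) - z| * P ^ 2 := by
        apply mul_le_mul_of_nonneg_right _ (by positivity)
        exact (h4.trans h1).trans hz

end Pool.Agent.H951R3
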