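import Mathlib
import Pool.Agent.H951R3.C10

set_option autoImplicit false

namespace Pool.Agent.H951R3

open Finset MeasureTheory Filter Topology

/-- the case of finitely many good multipliers with last coordinate zero -/
theorem main_dio {s : ℕ} (hs : 1 ≤ s) (α : Fin s → ℝ) (c : ℝ) (hc : 0 < c) (hdio : Dio α c) :
    ∀ᵐ t : ℝ, {q : (Fin s → ℕ) × ℕ | good q ∧ |(th α q.1 + q.2 * t) - (round (th α q.1 + q.2 * t) : ℝ)|
      < 1 / ((hh q.1 * q.2) * (Real.log (hh q.1 * q.2)) ^ (s + 1))}.Infinite := by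
  filter_upwards [ae_real _ (WC_full hs α c hc hdio)] with t ht
  unfold WC at ht
  simp only [Set.mem_ofPred_eq] at ht
  apply ht.mono
  rintro q ⟨hq1, hq2⟩
  exact ⟨hq1, size_step α q hq1 t hq2⟩

theorem main (m : ℕ) (α : Fin (m + 1) → ℝ) :
      ∀ᵐ t : ℝ ∂MeasureTheory.volume,
        Set.Infinite {n : Fin (m + 2) → ℤ |
          |(∑ i : Fin (m + 1), (n (Fin.castSucc i) : ℝ) * α i
              + (n (Fin.last (m + 1)) : ℝ) * t)
            - (round (∑ i : Fin (m + 1), (n (Fin.castSucc i) : ℝ) * α i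
              + (n (Fin.last (m + 1)) : ℝ) * t) : ℝ)|
          < 1 / ((∏ i : Fin (m + 2), max |(n i : ℝ)| 2)
              * (Real.log (∏ i : Fin (m + 2), max |(n i : ℝ)| 2)) ^ (m + 2))} := by
  classical
  by_cases hfin : {B : Fin (m + 1) → ℤ | |(∑ i, (B i : ℝ) * α i) - round (∑ i, (B i : ℝ) * α i)|
      < 1 / ((2 * ∏ i, max |(B i : ℝ)| 2) * (Real.log (2 * ∏ i, max |(B i : ℝ)| 2)) ^ (m + 1 + 1))}.Finite
  · obtain ⟨c, hc, hdio⟩ := dio_of_finite α hfin
    filter_upwards [main_dio (Nat.succ_pos m) α c hc hdio] with t ht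
    set g : (Fin (m + 1) → ℕ) × ℕ → (Fin (m + 2) → ℤ) := fun q =>
      Fin.snoc (α := fun _ => ℤ) (fun i => (q.1 i : ℤ)) (q.2 : ℤ) with hg
    have hinj : Function.Injective g := by
      intro q q' h
      have h1 : ∀ i : Fin (m + 1), (q.1 i : ℤ) = q'.1 i := by
        intro i
        have := congrFun h (Fin.castSucc i)
        simpa [hg] using this
      have h2 : (q.2 : ℤ) = q'.2 := by
        have := congrFun h (Fin.last (m + 1))
        simpa [hg] using this
      apply Prod.ext
      · funext i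
        exact_mod_cast h1 i
      · exact_mod_cast h2
    apply ((Set.infinite_image_iff hinj.injOn).2 ht).mono
    rintro _ ⟨q, ⟨⟨h2, hb, hhb⟩, hq⟩, rfl⟩
    simp only [Set.mem_ofPred_eq]
    have e1 : ∀ i : Fin (m + 1), ((g q (Fin.castSucc i) : ℤ) : ℝ) = q.1 i := by
      intro i
      simp [hg]
    have e2 : ((g q (Fin.last (m + 1)) : ℤ) : ℝ) = q.2 := by
      simp [hg]
    have e3 : ∏ i : Fin (m + 2), max |(g q i : ℝ)| 2 = hh q.1 * q.2 := by
      rw [Fin.prod_univ_castSucc]
      unfold hh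
      congr 1
      · apply Finset.prod_congr rfl
        intro i _
        rw [e1]
        have h3 : (2 : ℝ) ≤ q.1 i := by exact_mod_cast h2 i
        rw [abs_of_nonneg (Nat.cast_nonneg _), max_eq_left h3]
      · rw [e2]
        have h3 : (2 : ℝ) ≤ q.2 := by exact_mod_cast hb
        rw [abs_of_nonneg (Nat.cast_nonneg _), max_eq_left h3]
    have e4 : ∑ i : Fin (m + 1), (g q (Fin.castSucc i) : ℝ) * α i + (g q (Fin.last (m + 1)) : ℝ) * t
        = th α q.1 + q.2 * t := by
      rw [e2]
      unfold th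
      congr 1
      apply Finset.sum_congr rfl
      intro i _
      rw [e1]
    rw [e3, e4]
    exact hq
  · apply Filter.Eventually.of_forall
    intro t
    have hinf := Set.not_finite.1 hfin
    set g : (Fin (m + 1) → ℤ) → (Fin (m + 2) → ℤ) := fun B => Fin.snoc (α := fun _ => ℤ) B 0 with hg
    have hinj : Function.Injective g := by
      intro B B' h
      funext i
      have := congrFun h (Fin.castSucc i)
      simpa [hg] using this
    apply ((Set.infinite_image_iff hinj.injOn).2 hinf).mono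
    rintro _ ⟨B, hB, rfl⟩
    simp only [Set.mem_ofPred_eq] at hB ⊢
    have e1 : ∀ i : Fin (m + 1), ((g B (Fin.castSucc i) : ℤ) : ℝ) = B i := by
      intro i
      simp [hg]
    have e2 : ((g B (Fin.last (m + 1)) : ℤ) : ℝ) = 0 := by
      simp [hg]
    have e3 : ∏ i : Fin (m + 2), max |(g B i : ℝ)| 2 = 2 * ∏ i, max |(B i : ℝ)| 2 := by
      rw [Fin.prod_univ_castSucc, mul_comm]
      congr 1
      · rw [e2]; simp
      · apply Finset.prod_congr rfl
        intro i _
        rw [e1]
    have e4 : ∑ i : Fin (m + 1), (g B (Fin.castSucc i) : ℝ) * α i + (g B (Fin.last (m + 1)) : ℝ) * t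
        = ∑ i, (B i : ℝ) * α i := by
      rw [e2, zero_mul, add_zero]
      apply Finset.sum_congr rfl
      intro i _
      rw [e1]
    rw [e3, e4]
    exact hB

end Pool.Agent.H951R3
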